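import Mathlib

/-!
# Definitions: discrete gradients, coloured graphs and their triangulations
-/

set_option autoImplicit false

namespace Pool.MP_f18604_gt.Gem

open Finset

variable {α : Type*}

/-- `ρ` is a face of codimension one of `τ`. -/
def Facet (ρ τ : Finset α) : Prop := ρ ⊆ τ ∧ τ.card = ρ.card + 1

/-- A discrete gradient vector field on the simplicial complex `X` (a set of finite vertex
sets): a set of disjoint pairs `(σ, τ)` of simplices of `X`, with `σ` a codimension one face of
`τ`, without closed gradient paths. -/
structure DiscreteGradient (X : Set (Finset α)) where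
  /-- the pairs of the matching -/
  pair : Finset α → Finset α → Prop
  mem : ∀ {σ τ}, pair σ τ → σ ∈ X ∧ τ ∈ X ∧ Facet σ τ
  up_unique : ∀ {σ τ τ'}, pair σ τ → pair σ τ' → τ = τ'
  down_unique : ∀ {σ σ' τ}, pair σ τ → pair σ' τ → σ = σ'
  no_both : ∀ {ρ σ τ}, pair ρ σ → ¬ pair σ τ
  acyclic : ∀ σ, ¬ Relation.TransGen (fun a b => ∃ τ, pair a τ ∧ Facet b τ ∧ b ≠ a) σ σ

/-- The critical simplices: those which are in no pair. -/
def DiscreteGradient.Critical {X : Set (Finset α)} (D : DiscreteGradient X) (σ : Finset α) : Prop :=
  σ ∈ X ∧ ∀ τ, ¬ D.pair σ τ ∧ ¬ D.pair τ σ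

/-- A 5-coloured graph: a vertex set `V` (the 4-simplices of the associated coloured
triangulation) with five fixed point free involutions, `s c x` being the end point of the
edge of colour `c` at `x` (the 4-simplex glued to `x` along its face opposite to the vertex
labelled `c`). -/
structure ColoredGraph (V : Type) where
  s : Fin 5 → V → V
  invol : ∀ c x, s c (s c x) = x
  ne : ∀ c x, s c x ≠ x

namespace ColoredGraph

variable {V : Type} (Γ : ColoredGraph V)

/-- `Γ.res C x y`: the vertices `x` and `y` are joined by a path all of whose edges have colours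
in `C`.  The classes are the `C`-residues. -/
def res (C : Finset (Fin 5)) : Setoid V :=
  Relation.EqvGen.setoid (fun a b => ∃ c ∈ C, b = Γ.s c a)

/-- The number of `C`-residues. -/
noncomputable def g (C : Finset (Fin 5)) : ℕ := Nat.card (Quotient (Γ.res C))

/-- A face of the coloured triangulation `|K(Γ)|`: a nonempty set `L` of labels together with a
residue for the complementary colours.  It is a simplex of dimension `|L| - 1` whose vertices
are labelled by `L`; the 4-simplices containing it are the elements of the residue `S`. -/
@[ext] structure Face where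
  L : Finset (Fin 5)
  S : Set V
  nonempty : L.Nonempty
  isRes : ∃ x, S = {y | Γ.res Lᶜ x y}

variable {Γ} in
/-- The face relation of the coloured triangulation. -/
def Face.Le (F G : Γ.Face) : Prop := F.L ⊆ G.L ∧ G.S ⊆ F.S

/-- The barycentric subdivision of the coloured triangulation: its simplices are the nonempty
finite chains of faces. -/
def bary : Set (Finset Γ.Face) :=
  {σ | σ.Nonempty ∧ ∀ F ∈ σ, ∀ G ∈ σ, F.Le G ∨ G.Le F}

/-- `Γ` is contracted: deleting any colour leaves a connected graph; equivalently the coloured
triangulation has exactly five vertices. -/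
def Contracted : Prop := ∀ c x y, Γ.res {c}ᶜ x y

/-- The number of `D`-residues contained in the `C`-residue of `x` (for `D ⊆ C`). -/
noncomputable def nres (D C : Finset (Fin 5)) (x : V) : ℕ :=
  ((fun y => {z | Γ.res D y z}) '' {y | Γ.res C x y}).ncard

/-- All 3-residues represent 2-spheres: the 3-coloured graph formed by a `C`-residue, `|C| = 3`,
has as its dual triangulation a closed connected surface with one vertex for each 2-residue, and
this surface has Euler characteristic 2 (number of 2-residues minus half the number of graph
vertices).  Equivalently, the links of all edges of the coloured triangulation are 2-spheres. -/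
def Spherical : Prop :=
  ∀ C : Finset (Fin 5), C.card = 3 → ∀ x : V,
    2 * ∑ D ∈ C.powersetCard 2, Γ.nres D C x = {y | Γ.res C x y}.ncard + 4

/-- The first cohomology with coefficients in `Z/2` of the 2-complex dual to the coloured
triangulation vanishes: every labelling `u` of the edges of `Γ` by elements of `Z/2` whose sum
along each closed walk with alternating colours `c, d` is zero is the coboundary of a labelling
`w` of the vertices.  (`u c x` is the label of the edge of colour `c` at `x`.) -/
def Z2Acyclic : Prop :=
  ∀ u : Fin 5 → V → ZMod 2, (∀ c x, u c (Γ.s c x) = u c x) →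
    (∀ c d x n, c ≠ d → (fun y => Γ.s d (Γ.s c y))^[n] x = x →
      ∑ q ∈ range n, (u c ((fun y => Γ.s d (Γ.s c y))^[q] x) +
        u d (Γ.s c ((fun y => Γ.s d (Γ.s c y))^[q] x))) = 0) →
    ∃ w : V → ZMod 2, ∀ c x, u c x = w x + w (Γ.s c x)

/-- The number of `k`-dimensional faces of the coloured triangulation. -/
noncomputable def f (k : ℕ) : ℕ := Nat.card {F : Γ.Face // F.L.card = k + 1}

/-- The Euler characteristic of the coloured triangulation. -/
noncomputable def euler : ℤ := Γ.f 0 - Γ.f 1 + Γ.f 2 - Γ.f 3 + Γ.f 4

/-- For a cyclic ordering `ε` of the colours: the Euler characteristic of the closed surface into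
which `Γ` embeds regularly, the faces being the bicoloured cycles with consecutive colours. It
equals `2 - 2ρ` for bipartite `Γ`, where `ρ` is the regular genus of `Γ` with respect to `ε`. -/
noncomputable def regEuler (ε : Equiv.Perm (Fin 5)) : ℤ :=
  Nat.card V - ∑ c : Fin 5, (Γ.g {c} : ℤ) + ∑ i : Fin 5, (Γ.g {ε i, ε (i + 1)} : ℤ)

end ColoredGraph

end Pool.MP_f18604_gt.Gem
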