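import Mathlib
import Pool.Agent.Helper43.Gem.Defs

/-!
# Discrete gradients from vertex orderings

`DiscreteGradient X` is a discrete gradient vector field (acyclic matching, Forman, Chari) on a
simplicial complex `X`, given as a set of finite vertex sets.  `exists_gradient` builds one from a
numbering of the vertices together with spanning forests of all lower links.
-/

set_option autoImplicit false

namespace Pool.MP_f18604_gt.Gem

open Finset

variable {α : Type*}

section Construction

variable [DecidableEq α] (X : Set (Finset α)) (h : α → ℕ)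

/-- lower neighbours -/
def LN (v w : α) : Prop := h w < h v ∧ ({v, w} : Finset α) ∈ X

/-- `dep v`, `r v` describe a spanning forest of the lower link of `v`. -/
structure Forest (dep : α → α → ℕ) (r : α → α) (par : α → α → α) : Prop where
  root : ∀ v w, LN X h v w → LN X h v (r v) ∧ dep v (r v) = 0
  par : ∀ v w, LN X h v w → 0 < dep v w →
    LN X h v (par v w) ∧ ({v, w, par v w} : Finset α) ∈ X ∧ dep v (par v w) < dep v w

variable {X h}

theorem LN.ne {v w : α} (hl : LN X h v w) : v ≠ w := by
  rintro rfl; exact lt_irrefl _ hl.1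

variable {dep : α → α → ℕ} {r : α → α} {par : α → α → α}

/-- the pairs -/
inductive Pr (X : Set (Finset α)) (h : α → ℕ) (dep : α → α → ℕ) (r : α → α) (par : α → α → α) :
    Finset α → Finset α → Prop
  | base (v : α) (hv : LN X h v (r v)) : Pr X h dep r par {v} {v, r v}
  | step (v w : α) (hw : LN X h v w) (hd : 0 < dep v w) : Pr X h dep r par {v, w} {v, w, par v w}

theorem pair_eq_top {v w v' w' : α} (h1 : h w < h v) (h2 : h w' < h v')
    (he : ({v, w} : Finset α) = {v', w'}) : v = v' ∧ w = w' := by
  have hv : v ∈ ({v', w'} : Finset α) := by rw [← he]; simp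
  have hw : w ∈ ({v', w'} : Finset α) := by rw [← he]; simp
  have hv' : v' ∈ ({v, w} : Finset α) := by rw [he]; simp
  simp only [mem_insert, mem_singleton] at hv hw hv'
  rcases hv with rfl | rfl
  · refine ⟨rfl, ?_⟩
    rcases hw with rfl | rfl
    · exact absurd h1 (lt_irrefl _)
    · rfl
  · rcases hv' with rfl | rfl
    · exact absurd h2 (lt_irrefl _)
    · exact absurd (h1.trans h2) (lt_irrefl _)

theorem exists_gradient (hsing : ∀ σ ∈ X, ∀ v ∈ σ, ({v} : Finset α) ∈ X)
    (hdist : ∀ v w, v ≠ w → ({v, w} : Finset α) ∈ X → h v ≠ h w)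
    (F : Forest X h dep r par) :
    ∃ D : DiscreteGradient X,
      (∀ v, D.Critical {v} ↔ ({v} : Finset α) ∈ X ∧ ∀ w, ¬ LN X h v w) ∧
      (∀ σ, D.Critical σ → σ.card = 2 →
        ∃ v w, σ = {v, w} ∧ LN X h v w ∧ dep v w = 0 ∧ w ≠ r v) := by
  classical
  -- basic facts
  have rne : ∀ {v w}, LN X h v w → 0 < dep v w → w ≠ r v := by
    intro v w hl hd hh
    have := (F.root v w hl).2
    rw [← hh] at this; omega
  have parfacts : ∀ {v w}, LN X h v w → 0 < dep v w →
      LN X h v (par v w) ∧ ({v, w, par v w} : Finset α) ∈ X ∧ dep v (par v w) < dep v w :=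
    fun {v w} hl hd => F.par v w hl hd
  have parne : ∀ {v w}, LN X h v w → 0 < dep v w → par v w ≠ w := by
    intro v w hl hd hh
    have := (parfacts hl hd).2.2
    rw [hh] at this; exact lt_irrefl _ this
  have card3 : ∀ {v w}, LN X h v w → 0 < dep v w → ({v, w, par v w} : Finset α).card = 3 := by
    intro v w hl hd
    rw [card_insert_of_notMem, card_insert_of_notMem, card_singleton]
    · simp only [mem_singleton]; exact (parne hl hd).symm
    · simp only [mem_insert, mem_singleton, not_or]
      exact ⟨hl.ne, (parfacts hl hd).1.ne⟩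
  have card2 : ∀ {v w}, LN X h v w → ({v, w} : Finset α).card = 2 := by
    intro v w hl; exact card_pair hl.ne
  -- shape of pairs
  have key : ∀ {v w v' w'}, LN X h v w → 0 < dep v w → LN X h v' w' → 0 < dep v' w' →
      ({v, w, par v w} : Finset α) = {v', w', par v' w'} → v = v' ∧ w = w' := by
    intro v w v' w' hl hd hl' hd' he
    have p1 := parfacts hl hd
    have p2 := parfacts hl' hd'
    have hv : v ∈ ({v', w', par v' w'} : Finset α) := by rw [← he]; simp
    have hv' : v' ∈ ({v, w, par v w} : Finset α) := by rw [he]; simp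
    have low : ∀ {v w}, LN X h v w → 0 < dep v w → ∀ x ∈ ({v, w, par v w} : Finset α), x ≠ v →
        h x < h v := by
      intro v w hl hd x hx hxv
      simp only [mem_insert, mem_singleton] at hx
      rcases hx with rfl | rfl | rfl
      · exact absurd rfl hxv
      · exact hl.1
      · exact (parfacts hl hd).1.1
    have hvv : v = v' := by
      by_contra hne
      have a := low hl hd v' hv' (Ne.symm hne)
      have b := low hl' hd' v hv hne
      omega
    subst hvv
    refine ⟨rfl, ?_⟩
    have hw : w ∈ ({v, w', par v w'} : Finset α) := by rw [← he]; simp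
    have hw' : w' ∈ ({v, w, par v w} : Finset α) := by rw [he]; simp
    simp only [mem_insert, mem_singleton] at hw hw'
    rcases hw with h1 | h1 | h1
    · exact absurd h1.symm hl.ne
    · exact h1
    · rcases hw' with h2 | h2 | h2
      · exact absurd h2.symm hl'.ne
      · exact h2.symm
      · exfalso
        have a := p1.2.2; have b := p2.2.2
        rw [← h1] at b; rw [← h2] at a; omega
  refine ⟨{ pair := Pr X h dep r par
            mem := ?_
            up_unique := ?_
            down_unique := ?_
            no_both := ?_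
            acyclic := ?_ }, ?_, ?_⟩
  · rintro σ τ (⟨v, hv⟩ | ⟨v, w, hw, hd⟩)
    · refine ⟨hsing _ hv.2 v (by simp), hv.2, by simp, ?_⟩
      rw [card2 hv]; simp
    · refine ⟨hw.2, (parfacts hw hd).2.1, ?_, ?_⟩
      · intro x hx; simp only [mem_insert, mem_singleton] at hx ⊢; tauto
      · rw [card3 hw hd, card2 hw]
  · intro σ τ τ' h1 h2
    rcases h1 with ⟨v, hv⟩ | ⟨v, w, hw, hd⟩
    · generalize hs : ({v} : Finset α) = s at h2
      rcases h2 with ⟨v', hv'⟩ | ⟨v', w', hw', hd'⟩
      · have := Finset.singleton_injective hs; rw [this]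
      · have := congrArg Finset.card hs; rw [card2 hw'] at this; simp at this
    · generalize hs : ({v, w} : Finset α) = s at h2
      rcases h2 with ⟨v', hv'⟩ | ⟨v', w', hw', hd'⟩
      · have := congrArg Finset.card hs; rw [card2 hw] at this; simp at this
      · obtain ⟨rfl, rfl⟩ := pair_eq_top hw.1 hw'.1 hs; rfl
  · intro σ σ' τ h1 h2
    rcases h1 with ⟨v, hv⟩ | ⟨v, w, hw, hd⟩
    · generalize hs : ({v, r v} : Finset α) = s at h2
      rcases h2 with ⟨v', hv'⟩ | ⟨v', w', hw', hd'⟩
      · obtain ⟨rfl, _⟩ := pair_eq_top hv.1 hv'.1 hs; rfl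
      · have := congrArg Finset.card hs; rw [card3 hw' hd', card2 hv] at this; omega
    · generalize hs : ({v, w, par v w} : Finset α) = s at h2
      rcases h2 with ⟨v', hv'⟩ | ⟨v', w', hw', hd'⟩
      · have := congrArg Finset.card hs; rw [card3 hw hd, card2 hv'] at this; omega
      · obtain ⟨rfl, rfl⟩ := key hw hd hw' hd' hs; rfl
  · intro ρ σ τ h1 h2
    rcases h1 with ⟨v, hv⟩ | ⟨v, w, hw, hd⟩
    · generalize hs : ({v, r v} : Finset α) = s at h2
      rcases h2 with ⟨v', hv'⟩ | ⟨v', w', hw', hd'⟩
      · have := congrArg Finset.card hs; rw [card2 hv] at this; simp at this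
      · obtain ⟨rfl, hh⟩ := pair_eq_top hv.1 hw'.1 hs
        exact rne hw' hd' hh.symm
    · generalize hs : ({v, w, par v w} : Finset α) = s at h2
      rcases h2 with ⟨v', hv'⟩ | ⟨v', w', hw', hd'⟩
      · have := congrArg Finset.card hs; rw [card3 hw hd] at this; simp at this
      · have := congrArg Finset.card hs; rw [card3 hw hd, card2 hw'] at this; omega
  · -- acyclicity
    -- measure: for a one-element set `(2*h v + ...)`, use lexicographic order
    let m : Finset α → ℕ ×ₗ ℕ := fun σ =>
      toLex (σ.sup h, σ.sup (fun v => σ.sup (fun w => if h w < h v ∧ h v = σ.sup h then dep v w else 0)))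
    have dsup : ∀ {v w : α}, h w < h v → m {v, w} = toLex (h v, dep v w) := by
      intro v w hvw
      have h1 : ({v, w} : Finset α).sup h = h v := by
        rw [sup_insert, sup_singleton]; exact max_eq_left hvw.le
      simp only [m]
      rw [h1]
      congr 1
      ext
      · rfl
      · simp only
        rw [sup_insert, sup_singleton, sup_insert, sup_singleton, sup_insert, sup_singleton]
        have n1 : ¬ (h v < h w) := by omega
        simp [hvw, n1]
    have msing : ∀ v : α, m {v} = toLex (h v, 0) := by
      intro v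
      simp only [m, sup_singleton]
      simp
    have dec : ∀ a b : Finset α, (∃ τ, Pr X h dep r par a τ ∧ Facet b τ ∧ b ≠ a) → m b < m a := by
      rintro a b ⟨τ, hp, hf, hba⟩
      rcases hp with ⟨v, hv⟩ | ⟨v, w, hw, hd⟩
      · -- b = {r v}
        have hb : b = {r v} := by
          have hc : b.card = 1 := by have := hf.2; rw [card2 hv] at this; omega
          obtain ⟨x, rfl⟩ := card_eq_one.1 hc
          have hx : x ∈ ({v, r v} : Finset α) := hf.1 (by simp)
          simp only [mem_insert, mem_singleton] at hx
          rcases hx with rfl | rfl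
          · exact absurd rfl hba
          · rfl
        rw [hb, msing, msing]
        exact Prod.Lex.toLex_lt_toLex.2 (Or.inl hv.1)
      · obtain ⟨p1, p2, p3⟩ := parfacts hw hd
        have hc : b.card = 2 := by have := hf.2; rw [card3 hw hd] at this; omega
        -- b omits exactly one element
        have hsub := hf.1
        by_cases hvb : v ∈ b
        · -- b = {v, par v w}
          have hwb : w ∉ b := by
            intro hwb
            apply hba
            symm
            apply eq_of_subset_of_card_le
            · intro x hx; simp only [mem_insert, mem_singleton] at hx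
              rcases hx with rfl | rfl <;> assumption
            · rw [hc, card2 hw]
          have hb : b = {v, par v w} := by
            apply eq_of_subset_of_card_le
            · intro x hx
              have := hsub hx
              simp only [mem_insert, mem_singleton] at this ⊢
              rcases this with rfl | rfl | rfl
              · exact Or.inl rfl
              · exact absurd hx hwb
              · exact Or.inr rfl
            · rw [hc, card2 p1]
          rw [hb, dsup p1.1, dsup hw.1]
          exact Prod.Lex.toLex_lt_toLex.2 (Or.inr ⟨rfl, p3⟩)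
        · rw [dsup hw.1]
          apply Prod.Lex.toLex_lt_toLex.2
          left
          have : b.sup h < h v := by
            rw [Finset.sup_lt_iff]
            · intro x hx
              have := hsub hx
              simp only [mem_insert, mem_singleton] at this
              rcases this with rfl | rfl | rfl
              · exact absurd hx hvb
              · exact hw.1
              · exact p1.1
            · have := hw.1
              simp only [bot_eq_zero']; omega
          exact this
    intro σ hσ
    have : m σ < m σ := by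
      have aux : ∀ a b, Relation.TransGen (fun a b => ∃ τ, Pr X h dep r par a τ ∧ Facet b τ ∧ b ≠ a) a b →
          m b < m a := by
        intro a b hab
        induction hab with
        | single h1 => exact dec _ _ h1
        | tail _ h2 ih => exact (dec _ _ h2).trans ih
      exact aux _ _ hσ
    exact lt_irrefl _ this
  · -- critical vertices
    intro v
    constructor
    · rintro ⟨hv, hc⟩
      refine ⟨hv, fun w hw => ?_⟩
      exact (hc _).1 (Pr.base v (F.root v w hw).1)
    · rintro ⟨hv, hc⟩
      refine ⟨hv, fun τ => ⟨?_, ?_⟩⟩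
      · intro hp
        simp only at hp
        generalize hs : ({v} : Finset α) = s at hp
        rcases hp with ⟨v', hv'⟩ | ⟨v', w', hw', hd'⟩
        · have := Finset.singleton_injective hs; subst this; exact hc _ hv'
        · have := congrArg Finset.card hs; rw [card2 hw'] at this; simp at this
      · intro hp
        simp only at hp
        generalize hs : ({v} : Finset α) = s at hp
        rcases hp with ⟨v', hv'⟩ | ⟨v', w', hw', hd'⟩
        · have := congrArg Finset.card hs; rw [card2 hv'] at this; simp at this
        · have := congrArg Finset.card hs; rw [card3 hw' hd'] at this; simp at this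
  · -- critical edges
    rintro σ ⟨hσ, hc⟩ h2
    obtain ⟨x, y, hxy, rfl⟩ := card_eq_two.1 h2
    have main : ∀ v w : α, h w < h v → ({v, w} : Finset α) ∈ X →
        (∀ τ, ¬ Pr X h dep r par {v, w} τ ∧ ¬ Pr X h dep r par τ {v, w}) →
        ∃ v' w', ({v, w} : Finset α) = {v', w'} ∧ LN X h v' w' ∧ dep v' w' = 0 ∧ w' ≠ r v' := by
      intro v w hvw hX hcr
      have hl : LN X h v w := ⟨hvw, hX⟩
      refine ⟨v, w, rfl, hl, ?_, ?_⟩
      · by_contra hd
        exact (hcr _).1 (Pr.step v w hl (Nat.pos_of_ne_zero hd))
      · rintro rfl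
        exact (hcr _).2 (Pr.base v hl)
    rcases lt_or_gt_of_ne (hdist x y hxy hσ) with hlt | hlt
    · rw [pair_comm] at hσ hc ⊢
      exact main y x hlt hσ hc
    · exact main x y hlt hσ hc

/-- The lower link of `v` has a spanning forest whose roots, apart from one, satisfy `R`. -/
def GoodAt (X : Set (Finset α)) (h : α → ℕ) (v : α) (R : α → Prop) : Prop :=
  ∃ (d : α → ℕ) (r : α), (∀ w, LN X h v w → LN X h v r ∧ d r = 0) ∧
    (∀ w, LN X h v w → 0 < d w → ∃ w', LN X h v w' ∧ ({v, w, w'} : Finset α) ∈ X ∧ d w' < d w) ∧
    (∀ w, LN X h v w → d w = 0 → w ≠ r → R w)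

theorem GoodAt.mono {v : α} {R R' : α → Prop} (hg : GoodAt X h v R)
    (hR : ∀ w, LN X h v w → R w → R' w) : GoodAt X h v R' := by
  obtain ⟨d, r, h1, h2, h3⟩ := hg
  exact ⟨d, r, h1, h2, fun w a b c => hR w a (h3 w a b c)⟩

theorem goodAt_of_empty {v : α} (R : α → Prop) (hv : ∀ w, ¬ LN X h v w) : GoodAt X h v R :=
  ⟨fun _ => 0, v, fun w hw => absurd hw (hv w), fun w hw => absurd hw (hv w),
    fun w hw => absurd hw (hv w)⟩

/-- reachability of `w` from `r` in the lower link of `v` in `n` steps -/
def Rch (X : Set (Finset α)) (h : α → ℕ) (v r : α) : ℕ → α → Prop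
  | 0, w => w = r
  | n + 1, w => ∃ u, Rch X h v r n u ∧ LN X h v u ∧ LN X h v w ∧ ({v, u, w} : Finset α) ∈ X

/-- If the lower link is connected then there is only one root. -/
theorem goodAt_of_connected {v r : α} (hr : LN X h v r)
    (hc : ∀ w, LN X h v w →
      Relation.ReflTransGen (fun a b => LN X h v a ∧ LN X h v b ∧ ({v, a, b} : Finset α) ∈ X) r w) :
    GoodAt X h v (fun _ => False) := by
  have hex : ∀ w, LN X h v w → {n | Rch X h v r n w}.Nonempty := by
    intro w hw
    have := hc w hw
    clear hw
    induction this with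
    | refl => exact ⟨0, rfl⟩
    | tail _ hbc ih =>
      obtain ⟨n, hn⟩ := ih
      exact ⟨n + 1, _, hn, hbc⟩
  let d : α → ℕ := fun w => sInf {n | Rch X h v r n w}
  have dr : d r = 0 := Nat.le_zero.1 (Nat.sInf_le (s := {n | Rch X h v r n r}) rfl)
  refine ⟨d, r, fun w _ => ⟨hr, dr⟩, ?_, ?_⟩
  · intro w hw hpos
    have hfind : Rch X h v r (d w) w := Nat.sInf_mem (hex w hw)
    obtain ⟨m, hm⟩ : ∃ m, d w = m + 1 := ⟨d w - 1, by omega⟩
    rw [hm] at hfind
    obtain ⟨u, hu, hu1, _, hu3⟩ := hfind
    refine ⟨u, hu1, ?_, ?_⟩
    · have : ({v, w, u} : Finset α) = {v, u, w} := by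
        ext x; simp only [mem_insert, mem_singleton]; tauto
      rw [this]; exact hu3
    · rw [hm]
      exact Nat.lt_succ_of_le (Nat.sInf_le (s := {n | Rch X h v r n u}) hu)
  · intro w hw h0 hne
    have hfind : Rch X h v r (d w) w := Nat.sInf_mem (hex w hw)
    rw [h0] at hfind
    exact hne hfind

theorem exists_gradient' (hsing : ∀ σ ∈ X, ∀ v ∈ σ, ({v} : Finset α) ∈ X)
    (hdist : ∀ v w, v ≠ w → ({v, w} : Finset α) ∈ X → h v ≠ h w)
    (R : α → α → Prop) (hgood : ∀ v, GoodAt X h v (R v)) :
    ∃ D : DiscreteGradient X,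
      (∀ v, D.Critical {v} ↔ ({v} : Finset α) ∈ X ∧ ∀ w, ¬ LN X h v w) ∧
      (∀ σ, D.Critical σ → σ.card = 2 → ∃ v w, σ = {v, w} ∧ LN X h v w ∧ R v w) := by
  classical
  choose dep r h1 h2 h3 using hgood
  have h2' : ∀ v w, ∃ w', LN X h v w → 0 < dep v w →
      LN X h v w' ∧ ({v, w, w'} : Finset α) ∈ X ∧ dep v w' < dep v w := by
    intro v w
    by_cases hw : LN X h v w ∧ 0 < dep v w
    · obtain ⟨w', hw'⟩ := h2 v w hw.1 hw.2
      exact ⟨w', fun _ _ => hw'⟩
    · exact ⟨w, fun a b => absurd ⟨a, b⟩ hw⟩
  choose par hpar using h2'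
  obtain ⟨D, hD1, hD2⟩ := exists_gradient hsing hdist (dep := dep) (r := r) (par := par)
    ⟨fun v w hw => h1 v w hw, fun v w hw hd => hpar v w hw hd⟩
  refine ⟨D, hD1, ?_⟩
  intro σ hσ hc
  obtain ⟨v, w, e, hl, hd, hne⟩ := hD2 σ hσ hc
  exact ⟨v, w, e, hl, h3 v w hl hd hne⟩

end Construction

end Pool.MP_f18604_gt.Gem
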