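import Mathlib
import Pool.Agent.Helper43.Gem.Gradient

/-!
# Coloured graphs (gems), their face posets and the barycentric subdivision
-/

set_option autoImplicit false

namespace Pool.MP_f18604_gt.Gem

open Finset

namespace ColoredGraph

variable {V : Type} (Γ : ColoredGraph V)

theorem res_step {C : Finset (Fin 5)} {c : Fin 5} (hc : c ∈ C) (x : V) : Γ.res C x (Γ.s c x) :=
  Relation.EqvGen.rel _ _ ⟨c, hc, rfl⟩

theorem res_refl (C : Finset (Fin 5)) (x : V) : Γ.res C x x := (Γ.res C).refl x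

theorem res_symm {C : Finset (Fin 5)} {x y : V} (h : Γ.res C x y) : Γ.res C y x :=
  (Γ.res C).symm h

theorem res_trans {C : Finset (Fin 5)} {x y z : V} (h : Γ.res C x y) (h' : Γ.res C y z) :
    Γ.res C x z := (Γ.res C).trans h h'

theorem res_mono {C D : Finset (Fin 5)} (hCD : C ⊆ D) {x y : V} (h : Γ.res C x y) :
    Γ.res D x y := by
  induction h with
  | rel a b h => obtain ⟨c, hc, rfl⟩ := h; exact Γ.res_step (hCD hc) a
  | refl a => exact Γ.res_refl D a
  | symm a b _ ih => exact Γ.res_symm ih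
  | trans a b c _ _ ih1 ih2 => exact Γ.res_trans ih1 ih2

/-- A function which is invariant under the involutions with colours in `C` is constant on
`C`-residues. -/
theorem eq_of_res {β : Sort*} {C : Finset (Fin 5)} (f : V → β)
    (hf : ∀ c ∈ C, ∀ x, f (Γ.s c x) = f x) {x y : V} (h : Γ.res C x y) : f x = f y := by
  induction h with
  | rel a b h => obtain ⟨c, hc, rfl⟩ := h; exact (hf c hc a).symm
  | refl a => rfl
  | symm a b _ ih => exact ih.symm
  | trans a b c _ _ ih1 ih2 => exact ih1.trans ih2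

variable {Γ}

/-- The face of the 4-simplex `x` spanned by the vertices with labels in `L`. -/
def face (Γ : ColoredGraph V) (L : Finset (Fin 5)) (hL : L.Nonempty) (x : V) : Γ.Face where
  L := L
  S := {y | Γ.res Lᶜ x y}
  nonempty := hL
  isRes := ⟨x, rfl⟩

theorem face_eq_iff {L : Finset (Fin 5)} (hL : L.Nonempty) (x y : V) :
    Γ.face L hL x = Γ.face L hL y ↔ Γ.res Lᶜ x y := by
  constructor
  · intro h
    have : (Γ.face L hL x).S = (Γ.face L hL y).S := by rw [h]
    have hy : y ∈ (Γ.face L hL y).S := Γ.res_refl _ y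
    rw [← this] at hy; exact hy
  · intro h
    ext z
    · rfl
    · exact ⟨fun hz => Γ.res_trans (Γ.res_symm h) hz, fun hz => Γ.res_trans h hz⟩

theorem mem_face {L : Finset (Fin 5)} (hL : L.Nonempty) (x : V) : x ∈ (Γ.face L hL x).S :=
  Γ.res_refl _ x

theorem Face.exists_eq (F : Γ.Face) : ∃ x, x ∈ F.S ∧ F = Γ.face F.L F.nonempty x := by
  obtain ⟨x, hx⟩ := F.isRes
  refine ⟨x, ?_, ?_⟩
  · rw [hx]; exact Γ.res_refl _ x
  · ext z
    · rfl
    · rw [hx]; rfl

theorem Face.eq_face {F : Γ.Face} {x : V} (hx : x ∈ F.S) : F = Γ.face F.L F.nonempty x := by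
  obtain ⟨y, hy, h⟩ := F.exists_eq
  have : Γ.res F.Lᶜ y x := by
    have := hx; rw [h] at this; exact this
  rw [h]
  exact (face_eq_iff F.nonempty y x).2 this

theorem Face.Le.refl (F : Γ.Face) : F.Le F := ⟨Subset.refl _, fun _ h => h⟩

theorem Face.Le.trans {F G H : Γ.Face} (h : F.Le G) (h' : G.Le H) : F.Le H :=
  ⟨h.1.trans h'.1, h'.2.trans h.2⟩

theorem face_le {L M : Finset (Fin 5)} (hL : L.Nonempty) (hM : M.Nonempty) (h : L ⊆ M) (x : V) :
    (Γ.face L hL x).Le (Γ.face M hM x) :=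
  ⟨h, fun _ hy => Γ.res_mono (compl_subset_compl.2 h) hy⟩

theorem Face.le_iff {F G : Γ.Face} (x : V) (hx : x ∈ G.S) :
    F.Le G ↔ F.L ⊆ G.L ∧ x ∈ F.S := by
  constructor
  · intro h; exact ⟨h.1, h.2 hx⟩
  · rintro ⟨h1, h2⟩
    rw [Face.eq_face h2, Face.eq_face hx]
    exact face_le _ _ h1 x

theorem Face.Le.antisymm_of_L {F G : Γ.Face} (h : F.Le G) (hL : F.L = G.L) : F = G := by
  obtain ⟨x, hx, hG⟩ := G.exists_eq
  have hxF := h.2 hx
  have hF := Face.eq_face hxF
  rw [hF, hG]
  ext z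
  · simp only [face]; rw [hL]
  · change Γ.res F.Lᶜ x z ↔ Γ.res G.Lᶜ x z; rw [hL]

/-- comparability -/
def Cmp (F G : Γ.Face) : Prop := F.Le G ∨ G.Le F

theorem Cmp.symm {F G : Γ.Face} (h : Cmp F G) : Cmp G F := Or.symm h

theorem Cmp.refl (F : Γ.Face) : Cmp F F := Or.inl (Face.Le.refl F)

theorem pair_mem_bary [DecidableEq Γ.Face] {F G : Γ.Face} :
    ({F, G} : Finset Γ.Face) ∈ bary Γ ↔ Cmp F G := by
  constructor
  · intro h; exact h.2 F (by simp) G (by simp)
  · intro h
    refine ⟨by simp, ?_⟩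
    intro A hA B hB
    simp only [mem_insert, mem_singleton] at hA hB
    rcases hA with rfl | rfl <;> rcases hB with rfl | rfl
    · exact Cmp.refl _
    · exact h
    · exact h.symm
    · exact Cmp.refl _

theorem triple_mem_bary [DecidableEq Γ.Face] {F G H : Γ.Face} :
    ({F, G, H} : Finset Γ.Face) ∈ bary Γ ↔ Cmp F G ∧ Cmp F H ∧ Cmp G H := by
  constructor
  · intro h
    exact ⟨h.2 F (by simp) G (by simp), h.2 F (by simp) H (by simp), h.2 G (by simp) H (by simp)⟩
  · rintro ⟨h1, h2, h3⟩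
    refine ⟨by simp, ?_⟩
    intro A hA B hB
    simp only [mem_insert, mem_singleton] at hA hB
    rcases hA with rfl | rfl | rfl <;> rcases hB with rfl | rfl | rfl
    · exact Cmp.refl _
    · exact h1
    · exact h2
    · exact h1.symm
    · exact Cmp.refl _
    · exact h3
    · exact h2.symm
    · exact h3.symm
    · exact Cmp.refl _

theorem singleton_mem_bary (F : Γ.Face) : ({F} : Finset Γ.Face) ∈ bary Γ := by
  refine ⟨by simp, ?_⟩
  intro A hA B hB
  rw [mem_singleton] at hA hB
  subst hA; subst hB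
  exact Cmp.refl _

/-- distinct comparable faces have different label sets -/
theorem Cmp.L_ne {F G : Γ.Face} (h : Cmp F G) (hne : F ≠ G) : F.L ≠ G.L := by
  intro hL
  rcases h with h | h
  · exact hne (h.antisymm_of_L hL)
  · exact hne (h.antisymm_of_L hL.symm).symm

/-- If `F` and `G` are comparable and `|F.L| < |G.L|` then `F ≤ G`. -/
theorem Cmp.le_of_card {F G : Γ.Face} (h : Cmp F G) (hc : F.L.card < G.L.card) : F.Le G := by
  rcases h with h | h
  · exact h
  · exact absurd (card_le_card h.1) (by omega)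

end ColoredGraph

end Pool.MP_f18604_gt.Gem
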