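import Mathlib
import Pool.Agent.Helper43.Gem.Basic

/-!
# From the faces with labels in `I` to the whole barycentric subdivision
-/

set_option autoImplicit false

namespace Pool.MP_f18604_gt.Gem

open Finset

namespace ColoredGraph

variable {V : Type} {Γ : ColoredGraph V}

/-- The numbering of all faces extending a numbering `h1` (with values below `P`) of the faces
with labels in `I`: first these, then the mixed ones by increasing dimension, then the faces
without label in `I` by decreasing dimension. -/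
def ht (I : Finset (Fin 5)) (h1 : Γ.Face → ℕ) (P : ℕ) (F : Γ.Face) : ℕ :=
  if F.L ⊆ I then h1 F else if (F.L ∩ I).Nonempty then P + F.L.card else P + 20 - F.L.card

theorem Face.card_le (F : Γ.Face) : F.L.card ≤ 5 := by
  have := card_le_univ F.L; simpa using this

theorem Face.Le.card_lt {F G : Γ.Face} (h : F.Le G) (hne : F ≠ G) : F.L.card < G.L.card := by
  apply card_lt_card
  refine ⟨h.1, fun h' => hne (h.antisymm_of_L (Subset.antisymm h.1 h'))⟩

theorem Cmp.card_ne {F G : Γ.Face} (h : Cmp F G) (hne : F ≠ G) : F.L.card ≠ G.L.card := by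
  rcases h with h | h
  · exact (h.card_lt hne).ne
  · exact (h.card_lt hne.symm).ne'

section

variable [DecidableEq Γ.Face] {I : Finset (Fin 5)} {h1 : Γ.Face → ℕ} {P : ℕ}

omit [DecidableEq Γ.Face] in
theorem ht_one {F : Γ.Face} (hF : F.L ⊆ I) : ht I h1 P F = h1 F := if_pos hF

omit [DecidableEq Γ.Face] in
theorem ht_two {F : Γ.Face} (hF : ¬ F.L ⊆ I) (hF' : (F.L ∩ I).Nonempty) :
    ht I h1 P F = P + F.L.card := by rw [ht, if_neg hF, if_pos hF']

omit [DecidableEq Γ.Face] in
theorem ht_three {F : Γ.Face} (hF' : ¬ (F.L ∩ I).Nonempty) :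
    ht I h1 P F = P + 20 - F.L.card := by
  have hF : ¬ F.L ⊆ I := by
    intro h
    apply hF'
    obtain ⟨a, ha⟩ := F.nonempty
    exact ⟨a, mem_inter.2 ⟨ha, h ha⟩⟩
  rw [ht, if_neg hF, if_neg hF']

omit [DecidableEq Γ.Face] in
theorem not_sub_of_disj {F : Γ.Face} (hF' : ¬ (F.L ∩ I).Nonempty) : ¬ F.L ⊆ I := by
  intro h
  apply hF'
  obtain ⟨a, ha⟩ := F.nonempty
  exact ⟨a, mem_inter.2 ⟨ha, h ha⟩⟩

theorem LN_iff {F G : Γ.Face} :
    LN (bary Γ) (ht I h1 P) F G ↔ ht I h1 P G < ht I h1 P F ∧ Cmp F G := by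
  rw [LN, pair_mem_bary]

variable (hP : ∀ F : Γ.Face, F.L ⊆ I → h1 F < P)
include hP

theorem LN_one {F G : Γ.Face} (hF : F.L ⊆ I) :
    LN (bary Γ) (ht I h1 P) F G ↔ G.L ⊆ I ∧ h1 G < h1 F ∧ Cmp F G := by
  rw [LN_iff, ht_one hF]
  have hPF := hP F hF
  by_cases hG : G.L ⊆ I
  · rw [ht_one hG]; tauto
  · constructor
    · rintro ⟨h, _⟩
      exfalso
      by_cases hG' : (G.L ∩ I).Nonempty
      · rw [ht_two hG hG'] at h; omega
      · rw [ht_three hG'] at h; have := G.card_le; omega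
    · rintro ⟨h, _⟩; exact absurd h hG

theorem LN_two {F G : Γ.Face} (hF : ¬ F.L ⊆ I) (hF' : (F.L ∩ I).Nonempty) :
    LN (bary Γ) (ht I h1 P) F G ↔ G.Le F ∧ G ≠ F ∧ (G.L ∩ I).Nonempty := by
  rw [LN_iff, ht_two hF hF']
  constructor
  · rintro ⟨h, hc⟩
    by_cases hG : G.L ⊆ I
    · refine ⟨?_, ?_, ?_⟩
      · rcases hc with hc | hc
        · exact absurd (hc.1.trans hG) hF
        · exact hc
      · rintro rfl; exact hF hG
      · obtain ⟨a, ha⟩ := G.nonempty
        exact ⟨a, mem_inter.2 ⟨ha, hG ha⟩⟩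
    · by_cases hG' : (G.L ∩ I).Nonempty
      · rw [ht_two hG hG'] at h
        refine ⟨hc.symm.le_of_card (by omega), ?_, hG'⟩
        rintro rfl; omega
      · exfalso
        rw [ht_three hG'] at h
        have := G.card_le; have := F.card_le; omega
  · rintro ⟨h, hne, hG'⟩
    refine ⟨?_, Or.inr h⟩
    have hlt := h.card_lt hne
    by_cases hG : G.L ⊆ I
    · rw [ht_one hG]; have := hP G hG; omega
    · rw [ht_two hG hG']; omega

omit hP in
theorem LN_three {F G : Γ.Face} (hF' : ¬ (F.L ∩ I).Nonempty) :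
    LN (bary Γ) (ht I h1 P) F G ↔ F.Le G ∧ G ≠ F := by
  rw [LN_iff, ht_three hF']
  have hF := not_sub_of_disj hF'
  constructor
  · rintro ⟨h, hc⟩
    by_cases hG : G.L ⊆ I
    · exfalso
      rcases hc with hc | hc
      · exact hF (hc.1.trans hG)
      · obtain ⟨a, ha⟩ := G.nonempty
        exact hF' ⟨a, mem_inter.2 ⟨hc.1 ha, hG ha⟩⟩
    · by_cases hG' : (G.L ∩ I).Nonempty
      · refine ⟨?_, ?_⟩
        · rcases hc with hc | hc
          · exact hc
          · exfalso
            obtain ⟨a, ha⟩ := hG'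
            exact hF' ⟨a, mem_inter.2 ⟨hc.1 (mem_inter.1 ha).1, (mem_inter.1 ha).2⟩⟩
        · rintro rfl; exact hF' hG'
      · rw [ht_three hG'] at h
        have := G.card_le; have := F.card_le
        refine ⟨hc.le_of_card (by omega), ?_⟩
        rintro rfl; omega
  · rintro ⟨h, hne⟩
    refine ⟨?_, Or.inl h⟩
    have hlt := h.card_lt hne.symm
    have h5 := G.card_le; have h5' := F.card_le
    have hG : ¬ G.L ⊆ I := fun hh => hF (h.1.trans hh)
    by_cases hG' : (G.L ∩ I).Nonempty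
    · rw [ht_two hG hG']; omega
    · rw [ht_three hG']; omega

theorem ht_dist
    (hd : ∀ F G : Γ.Face, F.L ⊆ I → G.L ⊆ I → F ≠ G → Cmp F G → h1 F ≠ h1 G)
    {F G : Γ.Face} (hne : F ≠ G) (hc : Cmp F G) : ht I h1 P F ≠ ht I h1 P G := by
  have hcard := hc.card_ne hne
  have h5 := G.card_le; have h5' := F.card_le
  by_cases hF : F.L ⊆ I
  · rw [ht_one hF]
    have hPF := hP F hF
    by_cases hG : G.L ⊆ I
    · rw [ht_one hG]; exact hd F G hF hG hne hc
    · by_cases hG' : (G.L ∩ I).Nonempty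
      · rw [ht_two hG hG']; omega
      · rw [ht_three hG']; omega
  · by_cases hF' : (F.L ∩ I).Nonempty
    · rw [ht_two hF hF']
      by_cases hG : G.L ⊆ I
      · rw [ht_one hG]; have := hP G hG; omega
      · by_cases hG' : (G.L ∩ I).Nonempty
        · rw [ht_two hG hG']; omega
        · rw [ht_three hG']; omega
    · rw [ht_three hF']
      by_cases hG : G.L ⊆ I
      · rw [ht_one hG]; have := hP G hG; omega
      · by_cases hG' : (G.L ∩ I).Nonempty
        · rw [ht_two hG hG']; omega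
        · rw [ht_three hG']; omega

/-- mixed faces -/
theorem good_two {F : Γ.Face} (hF : ¬ F.L ⊆ I) (hF' : (F.L ∩ I).Nonempty) :
    GoodAt (bary Γ) (ht I h1 P) F (fun _ => False) := by
  obtain ⟨x, hx, hFx⟩ := F.exists_eq
  have hr1 : (Γ.face (F.L ∩ I) hF' x).Le F := by
    rw [Face.le_iff x hx]
    exact ⟨inter_subset_left, Γ.res_refl _ x⟩
  have hrI : (Γ.face (F.L ∩ I) hF' x).L = F.L ∩ I := rfl
  have hr : LN (bary Γ) (ht I h1 P) F (Γ.face (F.L ∩ I) hF' x) := by
    rw [LN_two hP hF hF']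
    refine ⟨hr1, ?_, ?_⟩
    · intro h
      apply hF
      rw [← h, hrI]; exact inter_subset_right
    · rw [hrI, inter_assoc, inter_self]; exact hF'
  refine goodAt_of_connected hr ?_
  intro G hG
  have hG' := (LN_two hP hF hF').1 hG
  obtain ⟨h1', hne, hGI⟩ := hG'
  have hxG : x ∈ G.S := h1'.2 hx
  have hG'G : (Γ.face (G.L ∩ I) hGI x).Le G := by
    rw [Face.le_iff x hxG]
    exact ⟨inter_subset_left, Γ.res_refl _ x⟩
  have hG'r : (Γ.face (G.L ∩ I) hGI x).Le (Γ.face (F.L ∩ I) hF' x) :=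
    face_le _ _ (inter_subset_inter h1'.1 (Subset.refl _)) x
  have hG'F := hG'G.trans h1'
  have hLN' : LN (bary Γ) (ht I h1 P) F (Γ.face (G.L ∩ I) hGI x) := by
    rw [LN_two hP hF hF']
    refine ⟨hG'F, ?_, ?_⟩
    · intro h
      apply hF
      rw [← h]; exact inter_subset_right
    · have : (Γ.face (G.L ∩ I) hGI x).L = G.L ∩ I := rfl
      rw [this, inter_assoc, inter_self]; exact hGI
  refine Relation.ReflTransGen.tail (Relation.ReflTransGen.single ⟨hr, hLN', ?_⟩) ⟨hLN', hG, ?_⟩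
  · rw [triple_mem_bary]; exact ⟨Or.inr hr1, Or.inr hG'F, Or.inr hG'r⟩
  · rw [triple_mem_bary]; exact ⟨Or.inr hG'F, Or.inr h1', Or.inl hG'G⟩

omit hP in
/-- faces without label in `I` -/
theorem good_three (hI : I.Nonempty) (hJ : Iᶜ.card ≤ 3) {F : Γ.Face}
    (hF' : ¬ (F.L ∩ I).Nonempty) :
    GoodAt (bary Γ) (ht I h1 P) F (fun _ => False) := by
  have hFL : F.L ⊆ Iᶜ := by
    intro a ha
    rw [mem_compl]
    intro haI
    exact hF' ⟨a, mem_inter.2 ⟨ha, haI⟩⟩
  have hcard : F.L.card ≤ 3 := (card_le_card hFL).trans hJ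
  obtain ⟨x, hx, hFx⟩ := F.exists_eq
  have huniv : (univ : Finset (Fin 5)).Nonempty := univ_nonempty
  have hLNu : ∀ y ∈ F.S, LN (bary Γ) (ht I h1 P) F (Γ.face univ huniv y) := by
    intro y hy
    rw [LN_three hF']
    constructor
    · rw [Face.le_iff y (mem_face _ y)]
      exact ⟨subset_univ _, hy⟩
    · intro h
      have : F.L.card = 5 := by rw [← h]; rfl
      omega
  have hLNc : ∀ c ∉ F.L, ∀ y ∈ F.S, ∀ hne : ({c}ᶜ : Finset (Fin 5)).Nonempty,
      LN (bary Γ) (ht I h1 P) F (Γ.face {c}ᶜ hne y) := by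
    intro c hc y hy hne
    rw [LN_three hF']
    constructor
    · rw [Face.le_iff y (mem_face _ y)]
      refine ⟨?_, hy⟩
      intro a ha
      change a ∈ ({c}ᶜ : Finset (Fin 5))
      rw [mem_compl, mem_singleton]
      rintro rfl; exact hc ha
    · intro h
      have : F.L.card = 4 := by
        rw [← h]
        change ({c}ᶜ : Finset (Fin 5)).card = 4
        rw [card_compl, card_singleton]; rfl
      omega
  refine goodAt_of_connected (hLNu x hx) ?_
  -- reachability of all facets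
  have hreach : ∀ y, y ∈ F.S → Relation.ReflTransGen (fun a b => LN (bary Γ) (ht I h1 P) F a ∧
      LN (bary Γ) (ht I h1 P) F b ∧ ({F, a, b} : Finset Γ.Face) ∈ bary Γ)
      (Γ.face univ huniv x) (Γ.face univ huniv y) := by
    intro y hy
    have hxy : Γ.res F.Lᶜ x y := by
      have := hy; rw [hFx] at this; exact this
    let f : V → Prop := fun a => a ∈ F.S ∧ Relation.ReflTransGen
      (fun a b => LN (bary Γ) (ht I h1 P) F a ∧ LN (bary Γ) (ht I h1 P) F b ∧
        ({F, a, b} : Finset Γ.Face) ∈ bary Γ) (Γ.face univ huniv x) (Γ.face univ huniv a)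
    have hstep : ∀ c ∈ F.Lᶜ, ∀ a, f a → f (Γ.s c a) := by
      rintro c hc a ⟨ha, hR⟩
      have hc' : c ∉ F.L := mem_compl.1 hc
      have hne : ({c}ᶜ : Finset (Fin 5)).Nonempty := by
        rw [← card_pos, card_compl, card_singleton]; simp
      have ha' : Γ.s c a ∈ F.S := by
        have h1 : Γ.res F.Lᶜ x a := by have := ha; rw [hFx] at this; exact this
        have h2 : Γ.res F.Lᶜ x (Γ.s c a) := Γ.res_trans h1 (Γ.res_step hc a)
        rw [hFx]; exact h2
      have hridge : Γ.face {c}ᶜ hne a = Γ.face {c}ᶜ hne (Γ.s c a) := by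
        rw [face_eq_iff]
        exact Γ.res_step (by simp) a
      refine ⟨ha', ?_⟩
      have l1 := hLNc c hc' a ha hne
      refine Relation.ReflTransGen.tail (Relation.ReflTransGen.tail hR ⟨hLNu a ha, l1, ?_⟩)
        ⟨l1, hLNu _ ha', ?_⟩
      · rw [triple_mem_bary]
        exact ⟨Or.inl ((LN_three hF').1 (hLNu a ha)).1, Or.inl ((LN_three hF').1 l1).1,
          Or.inr (face_le _ _ (subset_univ _) a)⟩
      · rw [triple_mem_bary]
        refine ⟨Or.inl ((LN_three hF').1 l1).1, Or.inl ((LN_three hF').1 (hLNu _ ha')).1, ?_⟩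
        rw [hridge]
        exact Or.inl (face_le _ _ (subset_univ _) _)
    have hf : ∀ c ∈ F.Lᶜ, ∀ a, f (Γ.s c a) = f a := by
      intro c hc a
      apply propext
      constructor
      · intro h
        have := hstep c hc _ h
        rwa [Γ.invol] at this
      · exact hstep c hc a
    have := Γ.eq_of_res f hf hxy
    have hfx : f x := ⟨hx, Relation.ReflTransGen.refl⟩
    rw [this] at hfx
    exact hfx.2
  intro G hG
  obtain ⟨h1', hne⟩ := (LN_three hF').1 hG
  obtain ⟨y, hy, hGy⟩ := G.exists_eq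
  have hyF : y ∈ F.S := h1'.2 hy
  refine Relation.ReflTransGen.tail (hreach y hyF) ⟨hLNu y hyF, hG, ?_⟩
  rw [triple_mem_bary]
  refine ⟨Or.inl ((LN_three hF').1 (hLNu y hyF)).1, Or.inl h1', Or.inr ?_⟩
  rw [Face.le_iff y (mem_face _ y)]
  exact ⟨subset_univ _, hy⟩

/-- Extension of a discrete gradient from the faces with labels in `I`. -/
theorem phases (hI : I.Nonempty) (hJ : Iᶜ.card ≤ 3)
    (hd : ∀ F G : Γ.Face, F.L ⊆ I → G.L ⊆ I → F ≠ G → Cmp F G → h1 F ≠ h1 G)
    (R : Γ.Face → Γ.Face → Prop)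
    (hgood : ∀ F : Γ.Face, F.L ⊆ I → GoodAt (bary Γ) (ht I h1 P) F (R F)) :
    ∃ D : DiscreteGradient (bary Γ),
      (∀ F : Γ.Face, D.Critical {F} ↔ F.L ⊆ I ∧ ∀ G : Γ.Face, G.L ⊆ I → Cmp F G → h1 F ≤ h1 G) ∧
      (∀ σ, D.Critical σ → σ.card = 2 →
        ∃ F G : Γ.Face, σ = {F, G} ∧ F.L ⊆ I ∧ G.L ⊆ I ∧ h1 G < h1 F ∧ Cmp F G ∧ R F G) := by
  obtain ⟨D, hD1, hD2⟩ := exists_gradient' (X := bary Γ) (h := ht I h1 P)
    (fun σ _ v _ => singleton_mem_bary v)
    (fun F G hne hFG => ht_dist hP hd hne (pair_mem_bary.1 hFG))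
    (fun F G => F.L ⊆ I ∧ R F G) (by
      intro F
      by_cases hF : F.L ⊆ I
      · exact (hgood F hF).mono (fun w _ hw => ⟨hF, hw⟩)
      · by_cases hF' : (F.L ∩ I).Nonempty
        · exact (good_two hP hF hF').mono (fun w _ hw => hw.elim)
        · exact (good_three hI hJ hF').mono (fun w _ hw => hw.elim))
  refine ⟨D, ?_, ?_⟩
  · intro F
    rw [hD1]
    constructor
    · rintro ⟨_, hF⟩
      have hFI : F.L ⊆ I := by
        by_contra hFI
        by_cases hF' : (F.L ∩ I).Nonempty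
        · obtain ⟨x, hx, hFx⟩ := F.exists_eq
          refine hF (Γ.face (F.L ∩ I) hF' x) ((LN_two hP hFI hF').2 ⟨?_, ?_, ?_⟩)
          · rw [Face.le_iff x hx]; exact ⟨inter_subset_left, Γ.res_refl _ x⟩
          · intro h; apply hFI; rw [← h]; exact inter_subset_right
          · change (F.L ∩ I ∩ I).Nonempty
            rw [inter_assoc, inter_self]; exact hF'
        · obtain ⟨x, hx, hFx⟩ := F.exists_eq
          refine hF (Γ.face univ univ_nonempty x) ((LN_three hF').2 ⟨?_, ?_⟩)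
          · rw [Face.le_iff x (mem_face _ x)]; exact ⟨subset_univ _, hx⟩
          · intro h
            apply hF'
            rw [← h]
            change (univ ∩ I).Nonempty
            rw [univ_inter]; exact hI
      refine ⟨hFI, fun G hG hc => ?_⟩
      by_contra hlt
      exact hF G ((LN_one hP hFI).2 ⟨hG, by omega, hc⟩)
    · rintro ⟨hFI, hmin⟩
      refine ⟨singleton_mem_bary F, fun G hG => ?_⟩
      obtain ⟨h1', h2', h3'⟩ := (LN_one hP hFI).1 hG
      have := hmin G h1' h3'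
      omega
  · intro σ hσ hc
    obtain ⟨F, G, e, hl, hFI, hR⟩ := hD2 σ hσ hc
    obtain ⟨a, b, c⟩ := (LN_one hP hFI).1 hl
    exact ⟨F, G, e, hFI, a, b, c, hR⟩

end

end ColoredGraph

end Pool.MP_f18604_gt.Gem
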