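import Mathlib
import Pool.Agent.Helper43.Gem.Phases

/-!
# The discrete gradient given by a pair of labels
-/

set_option autoImplicit false

namespace Pool.MP_f18604_gt.Gem

open Finset

namespace ColoredGraph

variable {V : Type} {Γ : ColoredGraph V}

theorem Contracted.vertex_eq (hΓ : Γ.Contracted) {F G : Γ.Face} {c : Fin 5} (hF : F.L = {c})
    (hG : G.L = {c}) : F = G := by
  obtain ⟨x, hx, hFx⟩ := F.exists_eq
  have hxG : x ∈ G.S := by
    obtain ⟨y, hy, hGy⟩ := G.exists_eq
    rw [hGy]
    change Γ.res G.Lᶜ y x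
    rw [hG]; exact hΓ c y x
  have : F.Le G := by
    rw [Face.le_iff x hxG]
    exact ⟨by rw [hF, hG], hx⟩
  exact this.antisymm_of_L (by rw [hF, hG])

/-- In a contracted graph the vertices of the triangulation are faces of everything which has
their label. -/
theorem Contracted.vertex_le (hΓ : Γ.Contracted) {F G : Γ.Face} {c : Fin 5} (hF : F.L = {c})
    (hG : c ∈ G.L) : F.Le G := by
  obtain ⟨x, hx, hGx⟩ := G.exists_eq
  rw [Face.le_iff x hx]
  refine ⟨by rw [hF]; exact singleton_subset_iff.2 hG, ?_⟩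
  obtain ⟨y, hy, hFy⟩ := F.exists_eq
  rw [hFy]
  change Γ.res F.Lᶜ y x
  rw [hF]; exact hΓ c y x

/-- labels of faces comparable with a vertex -/
theorem Cmp.mem_of_singleton {F G : Γ.Face} {c : Fin 5} (h : Cmp F G) (hF : F.L = {c}) :
    c ∈ G.L := by
  rcases h with h | h
  · exact h.1 (by rw [hF]; simp)
  · obtain ⟨a, ha⟩ := G.nonempty
    have := h.1 ha
    rw [hF, mem_singleton] at this
    rw [← this]; exact ha

theorem subset_pair_cases {i j : Fin 5} {L : Finset (Fin 5)} (hL : L.Nonempty)
    (h : L ⊆ {i, j}) : L = {i} ∨ L = {j} ∨ L = {i, j} := by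
  revert i j L; decide

theorem pair_gradient [DecidableEq Γ.Face] (hΓ : Γ.Contracted) {i j : Fin 5} (hij : i ≠ j)
    (x₀ : V) :
    ∃ D : DiscreteGradient (bary Γ),
      (∀ F : Γ.Face, D.Critical {F} ↔ F.L = {i}) ∧
      (∀ σ, D.Critical σ → σ.card = 2 → ∃ F G : Γ.Face, σ = {F, G} ∧ F.L = {i, j} ∧ G.L = {j} ∧
        F ≠ Γ.face {i, j} (insert_nonempty i {j}) x₀) := by
  classical
  have hI : ({i, j} : Finset (Fin 5)).Nonempty := insert_nonempty i {j}
  set e₀ : Γ.Face := Γ.face {i, j} hI x₀ with he₀
  have he₀L : e₀.L = {i, j} := rfl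
  have hji : ({j} : Finset (Fin 5)) ≠ {i} := by
    intro h; exact hij (singleton_injective h).symm
  have hiij : ({i, j} : Finset (Fin 5)) ≠ {i} := by
    intro h
    have : j ∈ ({i} : Finset (Fin 5)) := by rw [← h]; simp
    exact hij (mem_singleton.1 this).symm
  have hjij : ({i, j} : Finset (Fin 5)) ≠ {j} := by
    intro h
    have : i ∈ ({j} : Finset (Fin 5)) := by rw [← h]; simp
    exact hij (mem_singleton.1 this)
  let h1 : Γ.Face → ℕ := fun F => if F.L = {i} then 0 else if F.L = {j} then 2 else
    if F = e₀ then 1 else 3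
  have hi' : ∀ F : Γ.Face, F.L = {i} → h1 F = 0 := fun F h => if_pos h
  have hj' : ∀ F : Γ.Face, F.L = {j} → h1 F = 2 := fun F h => by
    simp only [h1]; rw [h, if_neg hji, if_pos rfl]
  have he' : h1 e₀ = 1 := by
    simp only [h1]; rw [he₀L, if_neg hiij, if_neg hjij]; simp
  have ho' : ∀ F : Γ.Face, F.L = {i, j} → F ≠ e₀ → h1 F = 3 := fun F h hne => by
    simp only [h1]; rw [h, if_neg hiij, if_neg hjij, if_neg hne]
  have hP : ∀ F : Γ.Face, F.L ⊆ {i, j} → h1 F < 4 := by
    intro F _
    simp only [h1]; split_ifs <;> omega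
  have cases : ∀ F : Γ.Face, F.L ⊆ {i, j} → F.L = {i} ∨ F.L = {j} ∨ F = e₀ ∨
      (F.L = {i, j} ∧ F ≠ e₀) := by
    intro F hF
    rcases subset_pair_cases F.nonempty hF with h | h | h
    · exact Or.inl h
    · exact Or.inr (Or.inl h)
    · by_cases he : F = e₀
      · exact Or.inr (Or.inr (Or.inl he))
      · exact Or.inr (Or.inr (Or.inr ⟨h, he⟩))
  have hJ : (({i, j} : Finset (Fin 5))ᶜ).card ≤ 3 := by
    rw [card_compl, card_pair hij]; simp
  have nc : ∀ F G : Γ.Face, F.L = {i} → G.L = {j} → ¬ Cmp F G := by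
    intro F G hF hG hc
    have := hc.mem_of_singleton hF
    rw [hG, mem_singleton] at this
    exact hij this
  have hd : ∀ F G : Γ.Face, F.L ⊆ {i, j} → G.L ⊆ {i, j} → F ≠ G → Cmp F G → h1 F ≠ h1 G := by
    intro F G hF hG hne hc
    have hLne := hc.L_ne hne
    rcases cases F hF with h | h | h | h <;> rcases cases G hG with h' | h' | h' | h'
    · exact absurd (h.trans h'.symm) hLne
    · exact absurd hc (nc F G h h')
    · rw [hi' F h, h', he']; omega
    · rw [hi' F h, ho' G h'.1 h'.2]; omega
    · exact absurd hc.symm (nc G F h' h)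
    · exact absurd (h.trans h'.symm) hLne
    · rw [hj' F h, h', he']; omega
    · rw [hj' F h, ho' G h'.1 h'.2]; omega
    · rw [hi' G h', h, he']; omega
    · rw [hj' G h', h, he']; omega
    · exact absurd (h.trans h'.symm) hne
    · rw [ho' G h'.1 h'.2, h, he']; omega
    · rw [hi' G h', ho' F h.1 h.2]; omega
    · rw [hj' G h', ho' F h.1 h.2]; omega
    · rw [h', he', ho' F h.1 h.2]; omega
    · exact absurd (h.1.trans h'.1.symm) hLne
  have hiI : ({i} : Finset (Fin 5)) ⊆ {i, j} := by simp
  have hjI : ({j} : Finset (Fin 5)) ⊆ {i, j} := by simp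
  -- the two vertices
  set vi : Γ.Face := Γ.face {i} (singleton_nonempty i) x₀ with hvi
  set vj : Γ.Face := Γ.face {j} (singleton_nonempty j) x₀ with hvj
  have hviL : vi.L = {i} := rfl
  have hvjL : vj.L = {j} := rfl
  obtain ⟨D, hD1, hD2⟩ := phases (I := {i, j}) (h1 := h1) (P := 4) hP hI hJ hd
    (fun F G => G.L = {j} ∧ F.L = {i, j} ∧ F ≠ e₀) (by
      intro F hF
      rcases cases F hF with h | h | h | h
      · -- vertex i
        apply goodAt_of_empty
        intro w hw
        rw [LN_one hP hF, hi' F h] at hw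
        omega
      · -- vertex j
        have hr : LN (bary Γ) (ht {i, j} h1 4) F e₀ := by
          rw [LN_one hP hF, hj' F h, he']
          refine ⟨by rw [he₀L], by omega, Or.inl (hΓ.vertex_le h (by rw [he₀L]; simp))⟩
        refine (goodAt_of_connected hr ?_).mono (fun _ _ h => h.elim)
        intro w hw
        rw [LN_one hP hF, hj' F h] at hw
        obtain ⟨a, b, c⟩ := hw
        rcases cases w a with h' | h' | h' | h'
        · exact absurd c.symm (nc w F h' h)
        · rw [hj' w h'] at b; omega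
        · rw [h']
        · rw [ho' w h'.1 h'.2] at b; omega
      · -- e₀
        subst h
        have hr : LN (bary Γ) (ht {i, j} h1 4) e₀ vi := by
          rw [LN_one hP hF, he', hi' vi hviL]
          refine ⟨by rw [hviL]; exact hiI, by omega,
            Or.inr (hΓ.vertex_le hviL (by rw [he₀L]; simp))⟩
        refine (goodAt_of_connected hr ?_).mono (fun _ _ h => h.elim)
        intro w hw
        rw [LN_one hP hF, he'] at hw
        obtain ⟨a, b, c⟩ := hw
        rcases cases w a with h' | h' | h' | h'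
        · rw [hΓ.vertex_eq h' hviL]
        · rw [hj' w h'] at b; omega
        · rw [h', he'] at b; omega
        · rw [ho' w h'.1 h'.2] at b; omega
      · -- other edges
        refine ⟨fun _ => 0, vi, ?_, ?_, ?_⟩
        · intro w _
          refine ⟨?_, rfl⟩
          rw [LN_one hP hF, ho' F h.1 h.2, hi' vi hviL]
          exact ⟨by rw [hviL]; exact hiI, by omega,
            Or.inr (hΓ.vertex_le hviL (by rw [h.1]; simp))⟩
        · intro w _ h0; exact absurd h0 (lt_irrefl _)
        · intro w hw _ hne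
          rw [LN_one hP hF, ho' F h.1 h.2] at hw
          obtain ⟨a, b, c⟩ := hw
          rcases cases w a with h' | h' | h' | h'
          · exact absurd (hΓ.vertex_eq h' hviL) hne
          · exact ⟨h', h.1, h.2⟩
          · exfalso
            rw [h'] at c
            exact c.L_ne h.2 (by rw [h.1, he₀L])
          · rw [ho' w h'.1 h'.2] at b; omega)
  refine ⟨D, ?_, ?_⟩
  · intro F
    rw [hD1]
    constructor
    · rintro ⟨hF, hmin⟩
      rcases cases F hF with h | h | h | h
      · exact h
      · exfalso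
        have := hmin e₀ (by rw [he₀L]) (Or.inl (hΓ.vertex_le h (by rw [he₀L]; simp)))
        rw [hj' F h, he'] at this; omega
      · exfalso
        subst h
        have := hmin vi (by rw [hviL]; exact hiI)
          (Or.inr (hΓ.vertex_le hviL (by rw [he₀L]; simp)))
        rw [he', hi' vi hviL] at this; omega
      · exfalso
        have := hmin vi (by rw [hviL]; exact hiI)
          (Or.inr (hΓ.vertex_le hviL (by rw [h.1]; simp)))
        rw [ho' F h.1 h.2, hi' vi hviL] at this; omega
    · intro h
      refine ⟨by rw [h]; exact hiI, fun G _ _ => ?_⟩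
      rw [hi' F h]; exact Nat.zero_le _
  · intro σ hσ hc
    obtain ⟨F, G, e, _, _, _, _, hR⟩ := hD2 σ hσ hc
    exact ⟨F, G, e, hR.2.1, hR.1, hR.2.2⟩

end ColoredGraph

end Pool.MP_f18604_gt.Gem
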