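import Mathlib
import Pool.Agent.Helper43.Gem.Pair

/-!
# The discrete gradient given by a percolating triple of labels
-/

set_option autoImplicit false

namespace Pool.MP_f18604_gt.Gem

open Finset

namespace ColoredGraph

variable {V : Type} {Γ : ColoredGraph V}

theorem triple_cases {i j k : Fin 5} (hij : i ≠ j) (hik : i ≠ k) (hjk : j ≠ k)
    {L : Finset (Fin 5)} (hL : L.Nonempty) (h : L ⊆ {i, j, k}) :
    (∃ c ∈ ({i, j, k} : Finset (Fin 5)), L = {c}) ∨ L = {i, j} ∨ L = {i, k} ∨ L = {j, k} ∨
      L = {i, j, k} := by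
  revert i j k L; decide

theorem edge_card {i j k : Fin 5} (hij : i ≠ j) (hik : i ≠ k) (hjk : j ≠ k)
    {L : Finset (Fin 5)} (h : L = {i, j} ∨ L = {i, k} ∨ L = {j, k}) :
    L.card = 2 ∧ L ⊆ {i, j, k} := by
  revert i j k L; decide

theorem card_two_cases {i j k : Fin 5} (hij : i ≠ j) (hik : i ≠ k) (hjk : j ≠ k)
    {L : Finset (Fin 5)} (hc : L.card = 2) (h : L ⊆ {i, j, k}) :
    L = {i, j} ∨ L = {i, k} ∨ L = {j, k} := by
  revert i j k L; decide

/-- the label opposite to an edge of the triangle -/
theorem opp_label {i j k : Fin 5} (hij : i ≠ j) (hik : i ≠ k) (hjk : j ≠ k)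
    {L : Finset (Fin 5)} (hc : L.card = 2) (h : L ⊆ {i, j, k}) :
    ∃ c ∈ ({i, j, k} : Finset (Fin 5)), c ∉ L ∧
      ∀ M : Finset (Fin 5), M ⊆ {i, j, k} → M.card = 2 → M ≠ L → c ∈ M := by
  have h0 : ∃ c ∈ ({i, j, k} : Finset (Fin 5)), c ∉ L ∧ ({i, j, k} : Finset (Fin 5)).erase c = L := by
    revert i j k L; decide
  obtain ⟨c, hc, hcL, hE⟩ := h0
  refine ⟨c, hc, hcL, fun M hM hMc hML => ?_⟩
  by_contra hcM
  apply hML
  apply eq_of_subset_of_card_le
  · rw [← hE]
    intro a ha
    exact mem_erase.2 ⟨fun h => hcM (h ▸ ha), hM ha⟩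
  · omega

theorem card_triple {i j k : Fin 5} (hij : i ≠ j) (hik : i ≠ k) (hjk : j ≠ k) :
    ({i, j, k} : Finset (Fin 5)).card = 3 := by
  revert i j k; decide

theorem sub_card {i j k : Fin 5} (hij : i ≠ j) (hik : i ≠ k) (hjk : j ≠ k)
    {L : Finset (Fin 5)} (hL : L.Nonempty) (h : L ⊆ {i, j, k}) :
    (L.card = 1 ∧ ∃ c ∈ ({i, j, k} : Finset (Fin 5)), L = {c}) ∨ L.card = 2 ∨
      (L.card = 3 ∧ L = {i, j, k}) := by
  revert i j k L; decide

/-- A percolation datum for the labels `i, j, k`: starting from an edge `y₀` with labels `{i,j}`,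
an edge `y₁` with labels `{i,k}` and the edges in `Cr`, every other edge `y` with labels in
`{i,j,k}` is the last edge (for `st`) of some triangle `tri y`. -/
structure Percolation (Γ : ColoredGraph V) (i j k : Fin 5) (y₀ y₁ : Γ.Face) (B : ℕ)
    (st : Γ.Face → ℕ) (tri : Γ.Face → Γ.Face) (Cr : Set Γ.Face) : Prop where
  L₀ : y₀.L = {i, j}
  L₁ : y₁.L = {i, k}
  pos : ∀ y : Γ.Face, y.L ⊆ {i, j, k} → y.L.card = 2 → y ≠ y₀ → y ≠ y₁ → 0 < st y ∧ st y ≤ B
  tri_L : ∀ y : Γ.Face, y.L ⊆ {i, j, k} → y.L.card = 2 → y ≠ y₀ → y ≠ y₁ → y ∉ Cr →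
    (tri y).L = {i, j, k} ∧ y.Le (tri y) ∧
      ∀ z : Γ.Face, z.Le (tri y) → z.L.card = 2 → z ≠ y → st z < st y

theorem triple_gradient [DecidableEq Γ.Face] (hΓ : Γ.Contracted) {i j k : Fin 5} (hij : i ≠ j)
    (hik : i ≠ k) (hjk : j ≠ k) {y₀ y₁ : Γ.Face} {B : ℕ} {st : Γ.Face → ℕ}
    {tri : Γ.Face → Γ.Face} {Cr : Set Γ.Face} (hp : Percolation Γ i j k y₀ y₁ B st tri Cr)
    (rt : Γ.Face → Fin 5) (hrt : ∀ F, rt F ∈ F.L) :
    ∃ D : DiscreteGradient (bary Γ),
      (∀ F : Γ.Face, D.Critical {F} ↔ F.L = {i}) ∧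
      (∀ σ, D.Critical σ → σ.card = 2 → ∃ F G : Γ.Face, σ = {F, G} ∧ F ∈ Cr ∧ F ≠ y₀ ∧ F ≠ y₁ ∧
        F.L.card = 2 ∧ G.L = F.L.erase (rt F)) := by
  classical
  set I : Finset (Fin 5) := {i, j, k} with hIdef
  have hIcard : I.card = 3 := card_triple hij hik hjk
  have hI : I.Nonempty := ⟨i, by rw [hIdef]; simp⟩
  have hJ : Iᶜ.card ≤ 3 := by rw [card_compl, hIcard]; simp
  have hy₀L : y₀.L = {i, j} := hp.L₀
  have hy₁L : y₁.L = {i, k} := hp.L₁
  obtain ⟨x₀, _, _⟩ := y₀.exists_eq
  have hy₀c : y₀.L.card = 2 := by rw [hy₀L, card_pair hij]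
  have hy₁c : y₁.L.card = 2 := by rw [hy₁L, card_pair hik]
  have hy₀I : y₀.L ⊆ I := by rw [hy₀L, hIdef]; intro a; simp only [mem_insert, mem_singleton]; tauto
  have hy₁I : y₁.L ⊆ I := by rw [hy₁L, hIdef]; intro a; simp only [mem_insert, mem_singleton]; tauto
  have hy01 : y₀ ≠ y₁ := by
    intro h
    have h2 : y₀.L = y₁.L := by rw [h]
    rw [hy₀L, hy₁L] at h2
    have : k ∈ ({i, j} : Finset (Fin 5)) := by rw [h2]; simp
    simp only [mem_insert, mem_singleton] at this
    rcases this with h | h
    · exact hik h.symm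
    · exact hjk h.symm
  -- generic edges
  let Ed : Γ.Face → Prop := fun y => y.L ⊆ I ∧ y.L.card = 2 ∧ y ≠ y₀ ∧ y ≠ y₁
  let Used : Γ.Face → Γ.Face → Prop := fun T y => Ed y ∧ y ∉ Cr ∧ T = tri y
  have pos : ∀ y, Ed y → 0 < st y ∧ st y ≤ B := fun y hy => hp.pos y hy.1 hy.2.1 hy.2.2.1 hy.2.2.2
  have triL : ∀ y, Ed y → y ∉ Cr → (tri y).L = I ∧ y.Le (tri y) ∧
      ∀ z : Γ.Face, z.Le (tri y) → z.L.card = 2 → z ≠ y → st z < st y :=
    fun y hy hc => hp.tri_L y hy.1 hy.2.1 hy.2.2.1 hy.2.2.2 hc
  have used_unique : ∀ T y z, Used T y → Used T z → y = z := by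
    rintro T y z ⟨hy, hyc, hTy⟩ ⟨hz, hzc, hTz⟩
    by_contra hne
    have a := (triL y hy hyc).2.2 z (by rw [← hTy, hTz]; exact (triL z hz hzc).2.1) hz.2.1
      (Ne.symm hne)
    have b := (triL z hz hzc).2.2 y (by rw [← hTz, hTy]; exact (triL y hy hyc).2.1) hy.2.1 hne
    omega
  let h1 : Γ.Face → ℕ := fun F =>
    if F.L.card = 1 then (if F.L = {i} then 0 else if F.L = {j} then 2 else 4)
    else if F.L.card = 2 then (if F = y₀ then 1 else if F = y₁ then 3 else 2 * st F + 4)
    else if hT : ∃ y, Used F y then 2 * st hT.choose + 3 else 2 * B + 5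
  have hv : ∀ F : Γ.Face, F.L.card = 1 → h1 F =
      (if F.L = {i} then 0 else if F.L = {j} then 2 else 4) := fun F h => if_pos h
  have hvle : ∀ F : Γ.Face, F.L.card = 1 → h1 F ≤ 4 := by
    intro F h; rw [hv F h]; split_ifs <;> omega
  have hi' : ∀ F : Γ.Face, F.L = {i} → h1 F = 0 := by
    intro F h; rw [hv F (by rw [h]; rfl), if_pos h]
  have hj' : ∀ F : Γ.Face, F.L = {j} → h1 F = 2 := by
    intro F h
    have : ¬ F.L = {i} := by rw [h]; intro hh; exact hij (singleton_injective hh).symm
    rw [hv F (by rw [h]; rfl), if_neg this, if_pos h]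
  have hk' : ∀ F : Γ.Face, F.L = {k} → h1 F = 4 := by
    intro F h
    have h1 : ¬ F.L = {i} := by rw [h]; intro hh; exact hik (singleton_injective hh).symm
    have h2 : ¬ F.L = {j} := by rw [h]; intro hh; exact hjk (singleton_injective hh).symm
    rw [hv F (by rw [h]; rfl), if_neg h1, if_neg h2]
  have he0 : h1 y₀ = 1 := by
    simp only [h1]; rw [if_neg (by rw [hy₀c]; omega), if_pos hy₀c]; simp
  have he1 : h1 y₁ = 3 := by
    simp only [h1]; rw [if_neg (by rw [hy₁c]; omega), if_pos hy₁c, if_neg hy01.symm]; simp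
  have heg : ∀ y, Ed y → h1 y = 2 * st y + 4 := by
    intro y hy
    simp only [h1]
    rw [if_neg (by rw [hy.2.1]; omega), if_pos hy.2.1, if_neg hy.2.2.1, if_neg hy.2.2.2]
  have htu : ∀ T y, T.L = I → Used T y → h1 T = 2 * st y + 3 := by
    intro T y hT hu
    have hex : ∃ y, Used T y := ⟨y, hu⟩
    simp only [h1]
    rw [if_neg (by rw [hT, hIcard]; omega), if_neg (by rw [hT, hIcard]; omega), dif_pos hex,
      used_unique T _ y hex.choose_spec hu]
  have htn : ∀ T : Γ.Face, T.L = I → (¬ ∃ y, Used T y) → h1 T = 2 * B + 5 := by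
    intro T hT hu
    simp only [h1]
    rw [if_neg (by rw [hT, hIcard]; omega), if_neg (by rw [hT, hIcard]; omega), dif_neg hu]
  -- case distinction of faces
  have cases : ∀ F : Γ.Face, F.L ⊆ I → (∃ c ∈ I, F.L = {c}) ∨ F = y₀ ∨ F = y₁ ∨ Ed F ∨
      F.L = I := by
    intro F hF
    rcases sub_card hij hik hjk F.nonempty hF with h | h | h
    · exact Or.inl h.2
    · by_cases h0 : F = y₀
      · exact Or.inr (Or.inl h0)
      · by_cases h1 : F = y₁
        · exact Or.inr (Or.inr (Or.inl h1))
        · exact Or.inr (Or.inr (Or.inr (Or.inl ⟨hF, h, h0, h1⟩)))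
    · exact Or.inr (Or.inr (Or.inr (Or.inr h.2)))
  have cI : ∀ c, c ∈ I → c = i ∨ c = j ∨ c = k := by
    intro c hc; rw [hIdef] at hc; simpa using hc
  have htri_odd : ∀ T : Γ.Face, T.L = I → 5 ≤ h1 T ∧ h1 T % 2 = 1 ∧ h1 T ≤ 2 * B + 5 := by
    intro T hT
    by_cases hu : ∃ y, Used T y
    · obtain ⟨y, hy⟩ := hu
      rw [htu T y hT hy]
      have := pos y hy.1
      omega
    · rw [htn T hT hu]; omega
  have hP : ∀ F : Γ.Face, F.L ⊆ I → h1 F < 2 * B + 6 := by
    intro F hF
    rcases cases F hF with ⟨c, hc, h⟩ | h | h | h | h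
    · have := hvle F (by rw [h]; rfl); omega
    · rw [h, he0]; omega
    · rw [h, he1]; omega
    · rw [heg F h]; have := pos F h; omega
    · have := htri_odd F h; omega
  have h1card : ∀ F : Γ.Face, ∀ c, F.L = {c} → F.L.card = 1 := by
    intro F c h; rw [h]; rfl
  have hvert : ∀ F : Γ.Face, ∀ c ∈ I, F.L = {c} → h1 F = 0 ∨ h1 F = 2 ∨ h1 F = 4 := by
    intro F c hc h
    rw [hv F (h1card F c h)]; split_ifs <;> omega
  have hd : ∀ F G : Γ.Face, F.L ⊆ I → G.L ⊆ I → F ≠ G → Cmp F G → h1 F ≠ h1 G := by
    have key : ∀ F G : Γ.Face, F.L ⊆ I → G.L ⊆ I → F.L.card < G.L.card → h1 F ≠ h1 G := by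
      intro F G hF hG hlt
      have hG2 : G.L.card ≤ 3 := by rw [← hIcard]; exact card_le_card hG
      rcases cases F hF with ⟨c, hc, h⟩ | h | h | h | h
      · have hv3 := hvert F c hc h
        rcases cases G hG with ⟨c', hc', h'⟩ | h' | h' | h' | h'
        · rw [h1card F c h, h1card G c' h'] at hlt; omega
        · rw [h', he0]; omega
        · rw [h', he1]; omega
        · rw [heg G h']; have := pos G h'; omega
        · have := htri_odd G h'; omega
      · rcases cases G hG with ⟨c', hc', h'⟩ | h' | h' | h' | h'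
        · rw [h1card G c' h', h, hy₀c] at hlt; omega
        · rw [h, h'] at hlt; omega
        · rw [h, h', hy₀c, hy₁c] at hlt; omega
        · rw [h, hy₀c, h'.2.1] at hlt; omega
        · have := htri_odd G h'; rw [h, he0]; omega
      · rcases cases G hG with ⟨c', hc', h'⟩ | h' | h' | h' | h'
        · rw [h1card G c' h', h, hy₁c] at hlt; omega
        · rw [h, h', hy₀c, hy₁c] at hlt; omega
        · rw [h, h'] at hlt; omega
        · rw [h, hy₁c, h'.2.1] at hlt; omega
        · have := htri_odd G h'; rw [h, he1]; omega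
      · rcases cases G hG with ⟨c', hc', h'⟩ | h' | h' | h' | h'
        · rw [h1card G c' h', h.2.1] at hlt; omega
        · rw [h', hy₀c, h.2.1] at hlt; omega
        · rw [h', hy₁c, h.2.1] at hlt; omega
        · rw [h'.2.1, h.2.1] at hlt; omega
        · have := htri_odd G h'; rw [heg F h]; omega
      · rw [h, hIcard] at hlt; omega
    intro F G hF hG hne hc
    rcases lt_or_gt_of_ne (hc.card_ne hne) with hlt | hlt
    · exact key F G hF hG hlt
    · exact (key G F hG hF hlt).symm
  -- vertices
  have hIsub : ∀ c ∈ I, ({c} : Finset (Fin 5)) ⊆ I := fun c hc => singleton_subset_iff.2 hc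
  let vt : Fin 5 → Γ.Face := fun c => Γ.face {c} (singleton_nonempty c) x₀
  have vtL : ∀ c, (vt c).L = {c} := fun c => rfl
  have iI : i ∈ I := by rw [hIdef]; simp
  have jI : j ∈ I := by rw [hIdef]; simp
  have kI : k ∈ I := by rw [hIdef]; simp
  -- triangles: lower link is connected
  have tri_good : ∀ (T z : Γ.Face), T.L = I → z.Le T → z.L.card = 2 →
      (∀ w : Γ.Face, w.Le T → w.L.card = 2 → w ≠ z → h1 w < h1 T) →
      (∀ w : Γ.Face, LN (bary Γ) (ht I h1 (2 * B + 6)) T w → w.Le T ∧ w ≠ T) →
      GoodAt (bary Γ) (ht I h1 (2 * B + 6)) T (fun _ => False) := by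
    intro T z hT hzT hzc hlow hLNT
    have hTI : T.L ⊆ I := by rw [hT]
    have h5 := htri_odd T hT
    obtain ⟨x, hx, hTx⟩ := T.exists_eq
    obtain ⟨c, hcI, hcz, hcM⟩ := opp_label hij hik hjk hzc (by rw [← hIdef, ← hT]; exact hzT.1)
    have vLN : ∀ a ∈ I, LN (bary Γ) (ht I h1 (2 * B + 6)) T (vt a) := by
      intro a ha
      rw [LN_one hP hTI]
      refine ⟨by rw [vtL]; exact hIsub a ha, ?_,
        Or.inr (hΓ.vertex_le (vtL a) (by rw [hT]; exact ha))⟩
      have := hvle (vt a) (by rw [vtL]; rfl)
      omega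
    -- edges of T containing c
    have eLN : ∀ w : Γ.Face, w.Le T → w.L.card = 2 → w ≠ z →
        LN (bary Γ) (ht I h1 (2 * B + 6)) T w := by
      intro w hw hwc hwz
      rw [LN_one hP hTI]
      exact ⟨by rw [← hT]; exact hw.1, hlow w hw hwc hwz, Or.inr hw⟩
    have vle : ∀ a ∈ I, (vt a).Le T := fun a ha => hΓ.vertex_le (vtL a) (by rw [hT]; exact ha)
    refine goodAt_of_connected (vLN c hcI) ?_
    -- all edges other than z
    have reachE : ∀ w : Γ.Face, w.Le T → w.L.card = 2 → w ≠ z →
        Relation.ReflTransGen (fun a b => LN (bary Γ) (ht I h1 (2 * B + 6)) T a ∧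
          LN (bary Γ) (ht I h1 (2 * B + 6)) T b ∧ ({T, a, b} : Finset Γ.Face) ∈ bary Γ)
          (vt c) w := by
      intro w hw hwc hwz
      have hwLz : w.L ≠ z.L := by
        intro hL
        apply hwz
        have hxw : x ∈ w.S := hw.2 hx
        have hxz : x ∈ z.S := hzT.2 hx
        have : w.Le z := by rw [Face.le_iff x hxz]; exact ⟨by rw [hL], hxw⟩
        exact this.antisymm_of_L hL
      have hcw : c ∈ w.L := hcM w.L (by rw [← hIdef, ← hT]; exact hw.1) hwc hwLz
      refine Relation.ReflTransGen.single ⟨vLN c hcI, eLN w hw hwc hwz, ?_⟩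
      rw [triple_mem_bary]
      exact ⟨Or.inr (vle c hcI), Or.inr hw, Or.inl (hΓ.vertex_le (vtL c) hcw)⟩
    -- vertices
    have reachV : ∀ a ∈ I, Relation.ReflTransGen (fun a b =>
        LN (bary Γ) (ht I h1 (2 * B + 6)) T a ∧
          LN (bary Γ) (ht I h1 (2 * B + 6)) T b ∧ ({T, a, b} : Finset Γ.Face) ∈ bary Γ)
          (vt c) (vt a) := by
      intro a ha
      by_cases hac : a = c
      · rw [hac]
      · set w : Γ.Face := Γ.face {a, c} (insert_nonempty a {c}) x with hw
        have hwL : w.L = {a, c} := rfl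
        have hwT : w.Le T := by
          rw [Face.le_iff x hx]
          refine ⟨?_, mem_face _ x⟩
          rw [hwL, hT]
          intro b hb
          simp only [mem_insert, mem_singleton] at hb
          rcases hb with rfl | rfl <;> assumption
        have hwc : w.L.card = 2 := by rw [hwL, card_pair hac]
        have hwz : w ≠ z := by
          intro h; apply hcz; rw [← h, hwL]; simp
        refine Relation.ReflTransGen.tail (reachE w hwT hwc hwz) ⟨eLN w hwT hwc hwz, vLN a ha, ?_⟩
        rw [triple_mem_bary]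
        exact ⟨Or.inr hwT, Or.inr (vle a ha), Or.inr (hΓ.vertex_le (vtL a) (by rw [hwL]; simp))⟩
    intro w hw
    obtain ⟨hwT, hne⟩ := hLNT w hw
    have hwI : w.L ⊆ I := by rw [← hT]; exact hwT.1
    rcases sub_card hij hik hjk w.nonempty hwI with h | h | h
    · obtain ⟨_, a, ha, haL⟩ := h
      rw [hΓ.vertex_eq haL (vtL a)]
      exact reachV a ha
    · by_cases hwz : w = z
      · -- z itself: go through one of its vertices
        subst hwz
        obtain ⟨a, ha⟩ := w.nonempty
        have haI : a ∈ I := hwI ha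
        refine Relation.ReflTransGen.tail (reachV a haI) ⟨vLN a haI, hw, ?_⟩
        rw [triple_mem_bary]
        exact ⟨Or.inr (vle a haI), Or.inr hwT, Or.inl (hΓ.vertex_le (vtL a) ha)⟩
      · exact reachE w hwT h hwz
    · exact absurd (hwT.antisymm_of_L (by rw [h.2, hT])) hne
  obtain ⟨D, hD1, hD2⟩ := phases (I := I) (h1 := h1) (P := 2 * B + 6) hP hI hJ hd
    (fun F G => F ∈ Cr ∧ F ≠ y₀ ∧ F ≠ y₁ ∧ F.L.card = 2 ∧ G.L = F.L.erase (rt F)) (by
      intro F hF
      have weak : GoodAt (bary Γ) (ht I h1 (2 * B + 6)) F (fun _ => False) →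
          GoodAt (bary Γ) (ht I h1 (2 * B + 6)) F
            (fun G => F ∈ Cr ∧ F ≠ y₀ ∧ F ≠ y₁ ∧ F.L.card = 2 ∧ G.L = F.L.erase (rt F)) :=
        fun hg => hg.mono (fun _ _ h => h.elim)
      rcases cases F hF with ⟨c, hc, h⟩ | h | h | h | h
      · -- vertices
        rcases cI c hc with rfl | rfl | rfl
        · apply goodAt_of_empty
          intro w hw
          rw [LN_one hP hF, hi' F h] at hw
          omega
        · -- vertex j
          have hr : LN (bary Γ) (ht I h1 (2 * B + 6)) F y₀ := by
            rw [LN_one hP hF, hj' F h, he0]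
            exact ⟨hy₀I, by omega, Or.inl (hΓ.vertex_le h (by rw [hy₀L]; simp))⟩
          refine weak (goodAt_of_connected hr ?_)
          intro w hw
          rw [LN_one hP hF, hj' F h] at hw
          obtain ⟨a, b, c'⟩ := hw
          rcases cases w a with ⟨d, hd', h'⟩ | h' | h' | h' | h'
          · exfalso
            have hm := c'.mem_of_singleton h
            rw [h', mem_singleton] at hm
            subst hm
            rw [hj' w h'] at b; omega
          · rw [h']
          · rw [h', he1] at b; omega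
          · rw [heg w h'] at b; omega
          · have := htri_odd w h'; omega
        · -- vertex k
          have hr : LN (bary Γ) (ht I h1 (2 * B + 6)) F y₁ := by
            rw [LN_one hP hF, hk' F h, he1]
            exact ⟨hy₁I, by omega, Or.inl (hΓ.vertex_le h (by rw [hy₁L]; simp))⟩
          refine weak (goodAt_of_connected hr ?_)
          intro w hw
          rw [LN_one hP hF, hk' F h] at hw
          obtain ⟨a, b, c'⟩ := hw
          have hm := c'.mem_of_singleton h
          rcases cases w a with ⟨d, hd', h'⟩ | h' | h' | h' | h'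
          · exfalso
            rw [h', mem_singleton] at hm
            subst hm
            rw [hk' w h'] at b; omega
          · exfalso
            rw [h', hy₀L] at hm
            simp only [mem_insert, mem_singleton] at hm
            rcases hm with hm | hm
            · exact hik hm.symm
            · exact hjk hm.symm
          · rw [h']
          · rw [heg w h'] at b; omega
          · have := htri_odd w h'; omega
      · -- y₀
        subst h
        have hr : LN (bary Γ) (ht I h1 (2 * B + 6)) F (vt i) := by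
          rw [LN_one hP hF, he0, hi' (vt i) (vtL i)]
          exact ⟨by rw [vtL]; exact hIsub i iI, by omega,
            Or.inr (hΓ.vertex_le (vtL i) (by rw [hy₀L]; simp))⟩
        refine weak (goodAt_of_connected hr ?_)
        intro w hw
        rw [LN_one hP hF, he0] at hw
        obtain ⟨a, b, c'⟩ := hw
        rcases cases w a with ⟨d, hd', h'⟩ | h' | h' | h' | h'
        · rcases cI d hd' with rfl | rfl | rfl
          · rw [hΓ.vertex_eq h' (vtL d)]
          · rw [hj' w h'] at b; omega
          · rw [hk' w h'] at b; omega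
        · rw [h', he0] at b; omega
        · rw [h', he1] at b; omega
        · rw [heg w h'] at b; omega
        · have := htri_odd w h'; omega
      · -- y₁
        subst h
        have hr : LN (bary Γ) (ht I h1 (2 * B + 6)) F (vt i) := by
          rw [LN_one hP hF, he1, hi' (vt i) (vtL i)]
          exact ⟨by rw [vtL]; exact hIsub i iI, by omega,
            Or.inr (hΓ.vertex_le (vtL i) (by rw [hy₁L]; simp))⟩
        refine weak (goodAt_of_connected hr ?_)
        intro w hw
        rw [LN_one hP hF, he1] at hw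
        obtain ⟨a, b, c'⟩ := hw
        rcases cases w a with ⟨d, hd', h'⟩ | h' | h' | h' | h'
        · rcases cI d hd' with rfl | rfl | rfl
          · rw [hΓ.vertex_eq h' (vtL d)]
          · exfalso
            have hm := c'.symm.mem_of_singleton h'
            rw [hy₁L] at hm
            simp only [mem_insert, mem_singleton] at hm
            rcases hm with hm | hm
            · exact hij hm.symm
            · exact hjk hm
          · rw [hk' w h'] at b; omega
        · exfalso
          rw [h'] at c'
          exact c'.card_ne hy01.symm (by rw [hy₀c, hy₁c])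
        · rw [h', he1] at b; omega
        · rw [heg w h'] at b; omega
        · have := htri_odd w h'; omega
      · -- generic edge
        have hs := pos F h
        -- lower neighbours of a generic edge
        have lown : ∀ w : Γ.Face, LN (bary Γ) (ht I h1 (2 * B + 6)) F w →
            Cmp F w ∧ ((w.L.card = 1 ∧ ∃ d ∈ I, w.L = {d}) ∨
              (w.L = I ∧ F ∉ Cr ∧ w = tri F)) := by
          intro w hw
          rw [LN_one hP hF, heg F h] at hw
          obtain ⟨a, b, c'⟩ := hw
          refine ⟨c', ?_⟩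
          have hcn : w ≠ F := by
            rintro rfl; rw [heg w h] at b; omega
          rcases sub_card hij hik hjk w.nonempty a with h' | h' | h'
          · exact Or.inl h'
          · exact absurd (by rw [h', h.2.1]) (c'.card_ne hcn.symm)
          · right
            have hwL : w.L = I := h'.2
            by_cases hu' : ∃ y, Used w y
            · obtain ⟨y, hy⟩ := hu'
              rw [htu w y hwL hy] at b
              by_cases hyF : y = F
              · rw [hyF] at hy; exact ⟨hwL, hy.2.1, hy.2.2⟩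
              · exfalso
                have hFw : F.Le w := c'.le_of_card (by rw [h.2.1, hwL, hIcard]; omega)
                have := (triL y hy.1 hy.2.1).2.2 F (by rw [← hy.2.2]; exact hFw) h.2.1
                  (Ne.symm hyF)
                omega
            · rw [htn w hwL hu'] at b; omega
        by_cases hCr : F ∈ Cr
        · -- critical edge
          have hv0 : LN (bary Γ) (ht I h1 (2 * B + 6)) F (vt (rt F)) := by
            rw [LN_one hP hF, heg F h]
            have := hvle (vt (rt F)) (by rw [vtL]; rfl)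
            exact ⟨by rw [vtL]; exact hIsub _ (hF (hrt F)), by omega,
              Or.inr (hΓ.vertex_le (vtL _) (hrt F))⟩
          refine ⟨fun _ => 0, vt (rt F), fun _ _ => ⟨hv0, rfl⟩,
            fun _ _ h0 => absurd h0 (lt_irrefl _), ?_⟩
          intro w hw _ hne
          obtain ⟨hc', hcase⟩ := lown w hw
          rcases hcase with ⟨hw1, d, hd, hwd⟩ | ⟨_, hn, _⟩
          · refine ⟨hCr, h.2.2.1, h.2.2.2, h.2.1, ?_⟩
            have hdF : d ∈ F.L := hc'.symm.mem_of_singleton hwd
            have hdr : d ≠ rt F := by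
              intro hh; apply hne
              exact hΓ.vertex_eq hwd (by rw [vtL, hh])
            rw [hwd]
            apply eq_of_subset_of_card_le
            · exact singleton_subset_iff.2 (mem_erase.2 ⟨hdr, hdF⟩)
            · rw [card_erase_of_mem (hrt F), h.2.1, card_singleton]
          · exact absurd hCr hn
        obtain ⟨hT, hFT, hmax⟩ := triL F h hCr
        have hu : Used (tri F) F := ⟨h, hCr, rfl⟩
        have hTF : h1 (tri F) = 2 * st F + 3 := htu _ _ hT hu
        have hr : LN (bary Γ) (ht I h1 (2 * B + 6)) F (tri F) := by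
          rw [LN_one hP hF, heg F h, hTF]
          exact ⟨by rw [hT], by omega, Or.inl hFT⟩
        refine weak (goodAt_of_connected hr ?_)
        intro w hw
        obtain ⟨hc', hcase⟩ := lown w hw
        rcases hcase with ⟨hw1, d, hd, hwd⟩ | ⟨_, _, hwt⟩
        · refine Relation.ReflTransGen.single ⟨hr, hw, ?_⟩
          rw [triple_mem_bary]
          exact ⟨Or.inl hFT, hc', Or.inr (hΓ.vertex_le hwd (by rw [hT]; exact hd))⟩
        · rw [hwt]
      · -- triangles
        by_cases hu : ∃ y, Used F y
        · obtain ⟨y, hy⟩ := hu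
          have hFh := htu F y h hy
          have hys := pos y hy.1
          obtain ⟨hT, hyT, hmax⟩ := triL y hy.1 hy.2.1
          rw [← hy.2.2] at hT hyT hmax
          refine weak (tri_good F y h hyT hy.1.2.1 ?_ ?_)
          · intro w hw hwc hwy
            have hst := hmax w hw hwc hwy
            rw [hFh]
            by_cases hw0 : w = y₀
            · rw [hw0, he0]; omega
            · by_cases hw1 : w = y₁
              · rw [hw1, he1]; omega
              · rw [heg w ⟨by rw [← h]; exact hw.1, hwc, hw0, hw1⟩]; omega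
          · intro w hw
            rw [LN_one hP hF] at hw
            obtain ⟨a, b, c'⟩ := hw
            have hne : w ≠ F := by rintro rfl; omega
            refine ⟨?_, hne⟩
            rcases c' with c' | c'
            · exact absurd (c'.antisymm_of_L (Subset.antisymm c'.1 (by rw [h]; exact a))) hne.symm
            · exact c'
        · have hFh := htn F h hu
          obtain ⟨x, hx, hFx⟩ := F.exists_eq
          refine weak (tri_good F (Γ.face {i, j} (insert_nonempty i {j}) x) h ?_ ?_ ?_ ?_)
          · rw [Face.le_iff x hx]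
            refine ⟨?_, mem_face _ x⟩
            change ({i, j} : Finset (Fin 5)) ⊆ F.L
            rw [h, ← hy₀L]; exact hy₀I
          · exact card_pair hij
          · intro w hw hwc _
            rw [hFh]
            by_cases hw0 : w = y₀
            · rw [hw0, he0]; omega
            · by_cases hw1 : w = y₁
              · rw [hw1, he1]; omega
              · have hEd : Ed w := ⟨by rw [← h]; exact hw.1, hwc, hw0, hw1⟩
                rw [heg w hEd]; have := pos w hEd; omega
          · intro w hw
            rw [LN_one hP hF] at hw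
            obtain ⟨a, b, c'⟩ := hw
            have hne : w ≠ F := by rintro rfl; omega
            refine ⟨?_, hne⟩
            rcases c' with c' | c'
            · exact absurd (c'.antisymm_of_L (Subset.antisymm c'.1 (by rw [h]; exact a))) hne.symm
            · exact c')
  refine ⟨D, ?_, ?_⟩
  · intro F
    rw [hD1]
    constructor
    · rintro ⟨hF, hmin⟩
      rcases cases F hF with ⟨c, hc, h⟩ | h | h | h | h
      · rcases cI c hc with rfl | rfl | rfl
        · exact h
        · exfalso
          have := hmin y₀ hy₀I (Or.inl (hΓ.vertex_le h (by rw [hy₀L]; simp)))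
          rw [hj' F h, he0] at this; omega
        · exfalso
          have := hmin y₁ hy₁I (Or.inl (hΓ.vertex_le h (by rw [hy₁L]; simp)))
          rw [hk' F h, he1] at this; omega
      · exfalso
        have := hmin (vt i) (by rw [vtL]; exact hIsub i iI)
          (Or.inr (hΓ.vertex_le (vtL i) (by rw [h, hy₀L]; simp)))
        rw [h, he0, hi' _ (vtL i)] at this; omega
      · exfalso
        have := hmin (vt i) (by rw [vtL]; exact hIsub i iI)
          (Or.inr (hΓ.vertex_le (vtL i) (by rw [h, hy₁L]; simp)))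
        rw [h, he1, hi' _ (vtL i)] at this; omega
      · exfalso
        obtain ⟨a, ha⟩ := F.nonempty
        have haI := hF ha
        have := hmin (vt a) (by rw [vtL]; exact hIsub a haI)
          (Or.inr (hΓ.vertex_le (vtL a) ha))
        have h4 := hvle (vt a) (by rw [vtL]; rfl)
        rw [heg F h] at this; have := pos F h; omega
      · exfalso
        have := hmin (vt i) (by rw [vtL]; exact hIsub i iI)
          (Or.inr (hΓ.vertex_le (vtL i) (by rw [h]; exact iI)))
        have h5 := htri_odd F h
        rw [hi' _ (vtL i)] at this; omega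
    · intro h
      refine ⟨by rw [h]; exact hIsub i iI, fun G _ _ => ?_⟩
      rw [hi' F h]; exact Nat.zero_le _
  · intro σ hσ hc
    obtain ⟨F, G, e, _, _, _, _, hR⟩ := hD2 σ hσ hc
    exact ⟨F, G, e, hR⟩

end ColoredGraph

end Pool.MP_f18604_gt.Gem
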