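import Mathlib
import Pool.Agent.Helper43.Gem.Triple

/-!
# Counting faces: the f-vector of a coloured triangulation of a 4-manifold
-/

set_option autoImplicit false

namespace Pool.MP_f18604_gt.Gem

open Finset

namespace ColoredGraph

variable {V : Type} (Γ : ColoredGraph V)

variable {Γ}

theorem card_faces_L {L : Finset (Fin 5)} (hL : L.Nonempty) :
    Nat.card {F : Γ.Face // F.L = L} = Γ.g Lᶜ := by
  unfold g
  symm
  let φ : Quotient (Γ.res Lᶜ) → {F : Γ.Face // F.L = L} :=
    Quotient.lift (fun x => (⟨Γ.face L hL x, rfl⟩ : {F : Γ.Face // F.L = L})) (by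
      intro x y hxy
      exact Subtype.ext ((face_eq_iff hL x y).2 hxy))
  refine Nat.card_congr (Equiv.ofBijective φ ⟨?_, ?_⟩)
  · intro q q'
    induction q using Quotient.inductionOn with | h x => ?_
    induction q' using Quotient.inductionOn with | h y => ?_
    intro h
    exact Quotient.sound ((face_eq_iff hL x y).1 (congrArg Subtype.val h))
  · rintro ⟨F, hF⟩
    obtain ⟨x, hx, hFx⟩ := F.exists_eq
    refine ⟨Quotient.mk _ x, ?_⟩
    apply Subtype.ext
    change Γ.face L hL x = F
    subst hF
    exact hFx.symm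

instance [Finite V] : Finite Γ.Face := by
  refine Finite.of_injective (β := Finset (Fin 5) × Set V) (fun F => (F.L, F.S)) ?_
  intro F G h
  simp only [Prod.mk.injEq] at h
  exact Face.ext h.1 h.2

theorem f_eq_sum [Finite V] (k : ℕ) :
    Γ.f k = ∑ L ∈ (univ : Finset (Fin 5)).powersetCard (k + 1), Γ.g Lᶜ := by
  classical
  have := Fintype.ofFinite Γ.Face
  unfold f
  rw [Nat.card_eq_fintype_card, Fintype.card_subtype,
    card_eq_sum_card_fiberwise (f := fun F : Γ.Face => F.L)
      (t := (univ : Finset (Fin 5)).powersetCard (k + 1))]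
  · apply sum_congr rfl
    intro L hL
    rw [mem_powersetCard] at hL
    have hne : L.Nonempty := by rw [← card_pos, hL.2]; omega
    rw [← card_faces_L hne, Nat.card_eq_fintype_card, Fintype.card_subtype]
    congr 1
    ext F
    simp only [mem_filter, mem_univ, true_and]
    constructor
    · exact fun h => h.2
    · intro h; exact ⟨by rw [h]; exact hL.2, h⟩
  · intro F hF
    simp only [coe_filter, mem_univ, true_and, Set.mem_ofPred_eq] at hF
    simp only [subset_univ, true_and, mem_coe, mem_powersetCard]
    exact hF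

/-- summation over fibres -/
theorem card_eq_sum_fiber {A B : Type} [Finite A] [Fintype B] (π : A → B) :
    Nat.card A = ∑ b, {a | π a = b}.ncard := by
  classical
  have := Fintype.ofFinite A
  rw [Nat.card_eq_fintype_card, ← card_univ,
    card_eq_sum_card_fiberwise (f := π) (t := univ) (fun _ _ => mem_coe.2 (mem_univ _))]
  apply sum_congr rfl
  intro b _
  rw [← Set.ncard_coe_finset]
  congr 1
  ext a; simp

theorem g_eq_sum_nres [Finite V] {D C : Finset (Fin 5)} (hDC : D ⊆ C)
    [Fintype (Quotient (Γ.res C))] :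
    Γ.g D = ∑ q : Quotient (Γ.res C), Γ.nres D C q.out := by
  classical
  unfold g
  let π : Quotient (Γ.res D) → Quotient (Γ.res C) :=
    Quotient.map' id (fun x y h => Γ.res_mono hDC h)
  rw [card_eq_sum_fiber π]
  apply sum_congr rfl
  intro q _
  unfold nres
  let cls : Quotient (Γ.res D) → Set V := fun r => {z | (Quotient.mk _ z : Quotient (Γ.res D)) = r}
  have hcls : Function.Injective cls := by
    intro r r' h
    induction r using Quotient.inductionOn with | h x => ?_
    have hx : x ∈ cls (Quotient.mk _ x) := rfl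
    rw [h] at hx
    exact hx
  have hcls' : ∀ y, cls (Quotient.mk _ y) = {z | Γ.res D y z} := by
    intro y
    ext z
    exact ⟨fun h => Γ.res_symm (Quotient.exact h), fun h => Quotient.sound (Γ.res_symm h)⟩
  rw [← Set.ncard_image_of_injective _ hcls]
  congr 1
  ext S
  simp only [Set.mem_image, Set.mem_ofPred_eq]
  constructor
  · rintro ⟨r, hr, rfl⟩
    induction r using Quotient.inductionOn with | h y => ?_
    refine ⟨y, ?_, (hcls' y).symm⟩
    have h1 : (Quotient.mk _ y : Quotient (Γ.res C)) = q := hr
    have h2 : (Quotient.mk _ q.out : Quotient (Γ.res C)) = q := Quotient.out_eq q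
    exact Quotient.exact (h2.trans h1.symm)
  · rintro ⟨y, hy, rfl⟩
    refine ⟨Quotient.mk _ y, ?_, hcls' y⟩
    change (Quotient.mk _ y : Quotient (Γ.res C)) = q
    have h2 : (Quotient.mk _ q.out : Quotient (Γ.res C)) = q := Quotient.out_eq q
    rw [← h2]
    exact Quotient.sound (Γ.res_symm hy)

theorem card_eq_sum_res [Finite V] (C : Finset (Fin 5)) [Fintype (Quotient (Γ.res C))] :
    Nat.card V = ∑ q : Quotient (Γ.res C), {y | Γ.res C q.out y}.ncard := by
  rw [card_eq_sum_fiber (fun x : V => (Quotient.mk _ x : Quotient (Γ.res C)))]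
  apply sum_congr rfl
  intro q _
  congr 1
  ext y
  simp only [Set.mem_ofPred_eq]
  have h2 : (Quotient.mk _ q.out : Quotient (Γ.res C)) = q := Quotient.out_eq q
  constructor
  · intro h
    exact Quotient.exact (h2.trans h.symm)
  · intro h
    rw [← h2]
    exact Quotient.sound (Γ.res_symm h)

/-- `2 (g_{ab} + g_{ac} + g_{bc}) = 2p + 4 g_{abc}` -/
theorem triple_relation [Finite V] (hS : Γ.Spherical) {C : Finset (Fin 5)} (hC : C.card = 3) :
    2 * ∑ D ∈ C.powersetCard 2, Γ.g D = Nat.card V + 4 * Γ.g C := by
  classical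
  have := Fintype.ofFinite (Quotient (Γ.res C))
  have h1 : ∀ D ∈ C.powersetCard 2, Γ.g D = ∑ q : Quotient (Γ.res C), Γ.nres D C q.out :=
    fun D hD => g_eq_sum_nres (mem_powersetCard.1 hD).1
  rw [sum_congr rfl h1, sum_comm, mul_sum, sum_congr rfl (fun q _ => hS C hC q.out),
    sum_add_distrib, ← card_eq_sum_res]
  simp only [sum_const, smul_eq_mul, card_univ]
  unfold g
  rw [Nat.card_eq_fintype_card (α := Quotient (Γ.res C))]
  ring

theorem res_empty {x y : V} (h : Γ.res ∅ x y) : x = y :=
  Γ.eq_of_res (fun z => z) (fun c hc => absurd hc (notMem_empty c)) h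

theorem g_empty : Γ.g ∅ = Nat.card V := by
  unfold g
  refine (Nat.card_congr (Equiv.ofBijective (fun x : V => (Quotient.mk _ x : Quotient (Γ.res ∅)))
    ⟨?_, Quotient.mk_surjective⟩)).symm
  intro x y h
  exact res_empty (Quotient.exact h)

theorem res_singleton (c : Fin 5) (x y : V) : Γ.res {c} x y ↔ y = x ∨ y = Γ.s c x := by
  constructor
  · intro h
    induction h with
    | rel a b h =>
      obtain ⟨d, hd, rfl⟩ := h
      rw [mem_singleton] at hd
      subst hd; exact Or.inr rfl
    | refl a => exact Or.inl rfl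
    | symm a b _ ih =>
      rcases ih with rfl | rfl
      · exact Or.inl rfl
      · right; rw [Γ.invol]
    | trans a b d _ _ ih1 ih2 =>
      rcases ih1 with rfl | rfl <;> rcases ih2 with rfl | rfl
      · exact Or.inl rfl
      · exact Or.inr rfl
      · exact Or.inr rfl
      · left; rw [Γ.invol]
  · rintro (rfl | rfl)
    · exact Γ.res_refl _ _
    · exact Γ.res_step (mem_singleton_self c) x

theorem g_singleton [Finite V] (c : Fin 5) : 2 * Γ.g {c} = Nat.card V := by
  classical
  have := Fintype.ofFinite (Quotient (Γ.res {c}))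
  rw [card_eq_sum_res (Γ := Γ) {c}]
  have : ∀ q : Quotient (Γ.res {c}), {y | Γ.res {c} q.out y}.ncard = 2 := by
    intro q
    have : {y | Γ.res {c} q.out y} = {q.out, Γ.s c q.out} := by
      ext y
      simp only [Set.mem_ofPred_eq, res_singleton, Set.mem_insert_iff, Set.mem_singleton_iff]
    rw [this, Set.ncard_pair (Γ.ne c q.out).symm]
  rw [sum_congr rfl (fun q _ => this q)]
  simp only [sum_const, smul_eq_mul, card_univ]
  unfold g
  rw [Nat.card_eq_fintype_card]
  ring

theorem g_compl_singleton (hΓ : Γ.Contracted) [Nonempty V] (c : Fin 5) : Γ.g {c}ᶜ = 1 := by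
  unfold g
  rw [Nat.card_eq_one_iff_unique]
  refine ⟨⟨fun q q' => ?_⟩, ⟨Quotient.mk _ (Classical.arbitrary V)⟩⟩
  induction q using Quotient.inductionOn with | h x => ?_
  induction q' using Quotient.inductionOn with | h y => ?_
  exact Quotient.sound (hΓ c x y)

end ColoredGraph

end Pool.MP_f18604_gt.Gem
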