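import Mathlib

/-!
# Percolation in tripartite triangle systems

`X` is a set of triangles, each with one edge `e x : E`, one edge `a x : A` and one edge `b x : B`.
If two edges of a triangle are known, so is the third.  We show that `s` suitably chosen known
edges suffice when `|E| = |A| = s ≥ 2` and the first cohomology with coefficients in `Z/2` of the
system vanishes.
-/

set_option autoImplicit false

namespace Pool.MP_f18604_gt.Gem

open Finset

/-- The edges which become known, starting from `KE` and `KA`. -/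
inductive Reach {X E A B : Type} (e : X → E) (a : X → A) (b : X → B) (KE : Set E) (KA : Set A) :
    E ⊕ A ⊕ B → Prop
  | baseE (u : E) (h : u ∈ KE) : Reach e a b KE KA (Sum.inl u)
  | baseA (u : A) (h : u ∈ KA) : Reach e a b KE KA (Sum.inr (Sum.inl u))
  | stepE (x : X) (h1 : Reach e a b KE KA (Sum.inr (Sum.inl (a x))))
      (h2 : Reach e a b KE KA (Sum.inr (Sum.inr (b x)))) : Reach e a b KE KA (Sum.inl (e x))
  | stepA (x : X) (h1 : Reach e a b KE KA (Sum.inl (e x)))
      (h2 : Reach e a b KE KA (Sum.inr (Sum.inr (b x)))) :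
      Reach e a b KE KA (Sum.inr (Sum.inl (a x)))
  | stepB (x : X) (h1 : Reach e a b KE KA (Sum.inl (e x)))
      (h2 : Reach e a b KE KA (Sum.inr (Sum.inl (a x)))) :
      Reach e a b KE KA (Sum.inr (Sum.inr (b x)))

section

variable {X E A B : Type} {e : X → E} {a : X → A} {b : X → B}

theorem Reach.mono {KE KE' : Set E} {KA KA' : Set A} (hE : KE ⊆ KE') (hA : KA ⊆ KA')
    {y : E ⊕ A ⊕ B} (h : Reach e a b KE KA y) : Reach e a b KE' KA' y := by
  induction h with
  | baseE u h => exact Reach.baseE u (hE h)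
  | baseA u h => exact Reach.baseA u (hA h)
  | stepE x _ _ ih1 ih2 => exact Reach.stepE x ih1 ih2
  | stepA x _ _ ih1 ih2 => exact Reach.stepA x ih1 ih2
  | stepB x _ _ ih1 ih2 => exact Reach.stepB x ih1 ih2

/-- exchange the roles of `E` and `A` -/
def sw {E A B : Type} : E ⊕ A ⊕ B → A ⊕ E ⊕ B
  | Sum.inl u => Sum.inr (Sum.inl u)
  | Sum.inr (Sum.inl u) => Sum.inl u
  | Sum.inr (Sum.inr u) => Sum.inr (Sum.inr u)

theorem Reach.swap {KE : Set E} {KA : Set A} {y : E ⊕ A ⊕ B} (h : Reach e a b KE KA y) :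
    Reach a e b KA KE (sw y) := by
  induction h with
  | baseE u h => exact Reach.baseA u h
  | baseA u h => exact Reach.baseE u h
  | stepE x _ _ ih1 ih2 => exact Reach.stepA x ih1 ih2
  | stepA x _ _ ih1 ih2 => exact Reach.stepE x ih1 ih2
  | stepB x _ _ ih1 ih2 => exact Reach.stepB x ih2 ih1

/-- The `Z/2`-labellings of the system are constant on `E` and on `A`. -/
def Rigid (e : X → E) (a : X → A) (b : X → B) : Prop :=
  ∀ (φ : E → ZMod 2) (ψ : A → ZMod 2),
    (∀ x y, b x = b y → φ (e x) + ψ (a x) = φ (e y) + ψ (a y)) →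
      (∀ u v, φ u = φ v) ∧ (∀ u v, ψ u = ψ v)

theorem Rigid.swap (h : Rigid e a b) : Rigid a e b := by
  intro φ ψ hh
  have := h ψ φ (fun x y hxy => by rw [add_comm, hh x y hxy, add_comm])
  exact ⟨this.2, this.1⟩

/-- If all elements of `E` and one element of `A` are reached then all elements of `A` are. -/
theorem reach_all_A (hZ : Rigid e a b) {KE : Set E} {KA : Set A}
    (hE : ∀ u, Reach e a b KE KA (Sum.inl u)) {a₀ : A}
    (h0 : Reach e a b KE KA (Sum.inr (Sum.inl a₀))) (v : A) :
    Reach e a b KE KA (Sum.inr (Sum.inl v)) := by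
  classical
  have key : ∀ x y, b x = b y → Reach e a b KE KA (Sum.inr (Sum.inl (a x))) →
      Reach e a b KE KA (Sum.inr (Sum.inl (a y))) := by
    intro x y hxy hx
    have hb := Reach.stepB x (hE _) hx
    rw [hxy] at hb
    exact Reach.stepA y (hE _) hb
  by_contra hv
  have := (hZ (fun _ => 0) (fun u => if Reach e a b KE KA (Sum.inr (Sum.inl u)) then 0 else 1) (by
    intro x y hxy
    by_cases hx : Reach e a b KE KA (Sum.inr (Sum.inl (a x)))
    · simp only [if_pos hx, if_pos (key x y hxy hx)]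
    · have hy : ¬ Reach e a b KE KA (Sum.inr (Sum.inl (a y))) :=
        fun h => hx (key y x hxy.symm h)
      simp only [if_neg hx, if_neg hy])).2 a₀ v
  simp only [if_pos h0, if_neg hv] at this
  exact absurd this (by decide)

/-- The strategy which uses all elements of `E` but one. -/
theorem s_one [Fintype E] [DecidableEq E] (hZ : Rigid e a b) {x y : X} (hb : b x = b y)
    (ha : a x = a y) (he : e x ≠ e y) :
    (∀ u, Reach e a b (↑((univ : Finset E).erase (e y))) (↑({a x} : Finset A)) (Sum.inl u)) ∧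
    (∀ u, Reach e a b (↑((univ : Finset E).erase (e y))) (↑({a x} : Finset A))
      (Sum.inr (Sum.inl u))) := by
  have hax : Reach e a b (↑((univ : Finset E).erase (e y))) (↑({a x} : Finset A))
      (Sum.inr (Sum.inl (a x))) := Reach.baseA _ (by simp)
  have hex : Reach e a b (↑((univ : Finset E).erase (e y))) (↑({a x} : Finset A))
      (Sum.inl (e x)) := Reach.baseE _ (by simp [he])
  have hbx := Reach.stepB x hex hax
  have hey : Reach e a b (↑((univ : Finset E).erase (e y))) (↑({a x} : Finset A))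
      (Sum.inl (e y)) := by
    refine Reach.stepE y ?_ ?_
    · rw [← ha]; exact hax
    · rw [← hb]; exact hbx
  have hE : ∀ u, Reach e a b (↑((univ : Finset E).erase (e y))) (↑({a x} : Finset A))
      (Sum.inl u) := by
    intro u
    by_cases h : u = e y
    · rw [h]; exact hey
    · exact Reach.baseE _ (by simp [h])
  exact ⟨hE, reach_all_A hZ hE hax⟩

end

/-- merging the element `f` into `u` -/
noncomputable def mrg {E : Type} (u f : E) (huf : u ≠ f) (x : E) : {x : E // x ≠ f} :=
  open Classical in if h : x = f then ⟨u, huf⟩ else ⟨x, h⟩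

theorem mrg_self {E : Type} (u f : E) (huf : u ≠ f) : mrg u f huf f = ⟨u, huf⟩ := by
  unfold mrg; rw [dif_pos rfl]

theorem mrg_of_ne {E : Type} (u f : E) (huf : u ≠ f) {x : E} (h : x ≠ f) :
    mrg u f huf x = ⟨x, h⟩ := by
  unfold mrg; rw [dif_neg h]

theorem mrg_surj {E : Type} (u f : E) (huf : u ≠ f) (x : {x : E // x ≠ f}) :
    mrg u f huf x.1 = x := mrg_of_ne u f huf x.2

theorem mrg_cases {E : Type} (u f : E) (huf : u ≠ f) {x : E} {w : {x : E // x ≠ f}}
    (h : mrg u f huf x = w) : x = w.1 ∨ (x = f ∧ w.1 = u) := by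
  by_cases hx : x = f
  · right; subst hx; rw [mrg_self] at h; exact ⟨rfl, by rw [← h]⟩
  · left; rw [mrg_of_ne u f huf hx] at h; rw [← h]

/-- **Percolation lemma.** -/
theorem percolation {X B : Type} (b : X → B) (s : ℕ) (hs : 2 ≤ s) :
    ∀ (E A : Type) [Fintype E] [Fintype A] (e : X → E) (a : X → A), Fintype.card E = s →
      Fintype.card A = s → Rigid e a b →
      ∃ (KE : Finset E) (KA : Finset A), KE.Nonempty ∧ KA.Nonempty ∧ KE.card + KA.card ≤ s ∧
        (∀ u, Reach e a b ↑KE ↑KA (Sum.inl u)) ∧ (∀ u, Reach e a b ↑KE ↑KA (Sum.inr (Sum.inl u)))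
    := by
  classical
  induction s, hs using Nat.le_induction with
  | base =>
    intro E A _ _ e a hE hA hZ
    -- type C
    by_cases hC : ∃ x y, b x = b y ∧ a x = a y ∧ e x ≠ e y
    · obtain ⟨x, y, hb, ha, he⟩ := hC
      obtain ⟨h1, h2⟩ := s_one hZ hb ha he
      refine ⟨univ.erase (e y), {a x}, ⟨e x, by simp [he]⟩, singleton_nonempty _, ?_, h1, h2⟩
      rw [card_erase_of_mem (mem_univ _), card_univ, hE, card_singleton]
    by_cases hR : ∃ x y, b x = b y ∧ e x = e y ∧ a x ≠ a y
    · obtain ⟨x, y, hb, he, ha⟩ := hR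
      obtain ⟨h1, h2⟩ := s_one hZ.swap hb he ha
      refine ⟨{e x}, univ.erase (a y), singleton_nonempty _, ⟨a x, by simp [ha]⟩, ?_,
        fun u => (h2 u).swap, fun u => (h1 u).swap⟩
      rw [card_erase_of_mem (mem_univ _), card_univ, hA, card_singleton]
    exfalso
    push Not at hC hR
    obtain ⟨e0, e1, hne, hEu'⟩ := Finset.card_eq_two.1 (card_univ.trans hE)
    obtain ⟨a0, a1, hna, hAu'⟩ := Finset.card_eq_two.1 (card_univ.trans hA)
    have hEu : ∀ u : E, u = e0 ∨ u = e1 := by
      intro u; have := mem_univ u; rw [hEu'] at this; simpa using this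
    have hAu : ∀ u : A, u = a0 ∨ u = a1 := by
      intro u; have := mem_univ u; rw [hAu'] at this; simpa using this
    have := (hZ (fun u => if u = e0 then 0 else 1) (fun u => if u = a0 then 0 else 1) (by
      intro x y hxy
      by_cases hexy : e x = e y
      · rw [hexy, hR x y hxy hexy]
      · have haxy : a x ≠ a y := fun h => hexy (hC x y hxy h)
        rcases hEu (e x) with h1 | h1 <;> rcases hEu (e y) with h2 | h2 <;>
        rcases hAu (a x) with h3 | h3 <;> rcases hAu (a y) with h4 | h4
        all_goals first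
          | exact absurd (h1.trans h2.symm) hexy
          | exact absurd (h3.trans h4.symm) haxy
          | (simp only [h1, h2, h3, h4, if_true, hne.symm, hna.symm, if_false]; try decide))).1
      e0 e1
    simp only [if_true, hne.symm, if_false] at this
    exact absurd this (by decide)
  | succ s hs ih =>
    intro E A _ _ e a hE hA hZ
    by_cases hC : ∃ x y, b x = b y ∧ a x = a y ∧ e x ≠ e y
    · obtain ⟨x, y, hb, ha, he⟩ := hC
      obtain ⟨h1, h2⟩ := s_one hZ hb ha he
      refine ⟨univ.erase (e y), {a x}, ⟨e x, by simp [he]⟩, singleton_nonempty _, ?_, h1, h2⟩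
      rw [card_erase_of_mem (mem_univ _), card_univ, hE, card_singleton]; omega
    by_cases hR : ∃ x y, b x = b y ∧ e x = e y ∧ a x ≠ a y
    · obtain ⟨x, y, hb, he, ha⟩ := hR
      obtain ⟨h1, h2⟩ := s_one hZ.swap hb he ha
      refine ⟨{e x}, univ.erase (a y), singleton_nonempty _, ⟨a x, by simp [ha]⟩, ?_,
        fun u => (h2 u).swap, fun u => (h1 u).swap⟩
      rw [card_erase_of_mem (mem_univ _), card_univ, hA, card_singleton]; omega
    push Not at hC hR
    -- a pair of triangles with the same edge in `B` and different edges in `E`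
    have hpair : ∃ x y, b x = b y ∧ e x ≠ e y := by
      by_contra hcon
      push Not at hcon
      obtain ⟨e0, e1, hne⟩ : ∃ e0 e1 : E, e0 ≠ e1 := by
        have : 1 < Fintype.card E := by omega
        exact Fintype.one_lt_card_iff.1 this
      have := (hZ (fun u => if u = e0 then 0 else 1) (fun _ => 0) (by
        intro x y hxy
        rw [hcon x y hxy])).1 e0 e1
      simp only [if_true, hne.symm, if_false] at this
      exact absurd this (by decide)
    obtain ⟨x₁, x₂, hbx, hex⟩ := hpair
    have hax : a x₁ ≠ a x₂ := fun h => hex (hC x₁ x₂ hbx h)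
    -- merge `e x₂` into `e x₁` and `a x₂` into `a x₁`
    obtain ⟨KE, KA, _, _, hcard, hEr, hAr⟩ := ih {u : E // u ≠ e x₂} {u : A // u ≠ a x₂}
      (fun x => mrg (e x₁) (e x₂) hex (e x)) (fun x => mrg (a x₁) (a x₂) hax (a x))
      (by rw [Fintype.card_subtype_compl, Fintype.card_subtype_eq, hE]; omega)
      (by rw [Fintype.card_subtype_compl, Fintype.card_subtype_eq, hA]; omega)
      (by
        intro φ ψ hh
        have := hZ (fun u => φ (mrg (e x₁) (e x₂) hex u)) (fun u => ψ (mrg (a x₁) (a x₂) hax u))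
          hh
        refine ⟨fun u v => ?_, fun u v => ?_⟩
        · rw [← mrg_surj (e x₁) (e x₂) hex u, ← mrg_surj (e x₁) (e x₂) hex v]
          exact this.1 _ _
        · rw [← mrg_surj (a x₁) (a x₂) hax u, ← mrg_surj (a x₁) (a x₂) hax v]
          exact this.2 _ _)
    set LE : Finset E := KE.map (Function.Embedding.subtype _) with hLE
    set LA : Finset A := KA.map (Function.Embedding.subtype _) with hLA
    have hLEc : LE.card = KE.card := card_map _
    have hLAc : LA.card = KA.card := card_map _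
    have memE : ∀ u : {u : E // u ≠ e x₂}, u ∈ KE → u.1 ∈ LE := by
      intro u hu; rw [hLE, mem_map]; exact ⟨u, hu, rfl⟩
    have memA : ∀ u : {u : A // u ≠ a x₂}, u ∈ KA → u.1 ∈ LA := by
      intro u hu; rw [hLA, mem_map]; exact ⟨u, hu, rfl⟩
    -- transfer of reachability
    have transfer : ∀ (ME : Finset E) (MA : Finset A), LE ⊆ ME → LA ⊆ MA →
        (Reach e a b ↑ME ↑MA (Sum.inl (e x₁)) ↔ Reach e a b ↑ME ↑MA (Sum.inl (e x₂))) →
        (Reach e a b ↑ME ↑MA (Sum.inr (Sum.inl (a x₁))) ↔
          Reach e a b ↑ME ↑MA (Sum.inr (Sum.inl (a x₂)))) →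
        (∀ u, Reach e a b ↑ME ↑MA (Sum.inl u)) ∧
          (∀ u, Reach e a b ↑ME ↑MA (Sum.inr (Sum.inl u))) := by
      intro ME MA hME hMA iffE iffA
      have key : ∀ y : {u : E // u ≠ e x₂} ⊕ {u : A // u ≠ a x₂} ⊕ B,
          Reach (fun x => mrg (e x₁) (e x₂) hex (e x)) (fun x => mrg (a x₁) (a x₂) hax (a x)) b
            (↑KE) (↑KA) y →
          Reach e a b ↑ME ↑MA (Sum.map Subtype.val (Sum.map Subtype.val id) y) := by
        have liftE : ∀ x, Reach e a b ↑ME ↑MA
            (Sum.inl (mrg (e x₁) (e x₂) hex (e x)).1) ↔ Reach e a b ↑ME ↑MA (Sum.inl (e x)) := by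
          intro x
          by_cases h : e x = e x₂
          · rw [h, mrg_self]; exact iffE
          · rw [mrg_of_ne _ _ _ h]
        have liftA : ∀ x, Reach e a b ↑ME ↑MA
            (Sum.inr (Sum.inl (mrg (a x₁) (a x₂) hax (a x)).1)) ↔
              Reach e a b ↑ME ↑MA (Sum.inr (Sum.inl (a x))) := by
          intro x
          by_cases h : a x = a x₂
          · rw [h, mrg_self]; exact iffA
          · rw [mrg_of_ne _ _ _ h]
        intro y hy
        induction hy with
        | baseE u h => exact Reach.baseE _ (mem_coe.2 (hME (memE u (mem_coe.1 h))))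
        | baseA u h => exact Reach.baseA _ (mem_coe.2 (hMA (memA u (mem_coe.1 h))))
        | stepE x _ _ ih1 ih2 =>
          exact (liftE x).2 (Reach.stepE x ((liftA x).1 ih1) ih2)
        | stepA x _ _ ih1 ih2 =>
          exact (liftA x).2 (Reach.stepA x ((liftE x).1 ih1) ih2)
        | stepB x _ _ ih1 ih2 =>
          exact Reach.stepB x ((liftE x).1 ih1) ((liftA x).1 ih2)
      constructor
      · intro u
        by_cases h : u = e x₂
        · rw [h]; exact iffE.1 (key _ (hEr ⟨e x₁, hex⟩))
        · exact key _ (hEr ⟨u, h⟩)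
      · intro u
        by_cases h : u = a x₂
        · rw [h]; exact iffA.1 (key _ (hAr ⟨a x₁, hax⟩))
        · exact key _ (hAr ⟨u, h⟩)
    -- given `e x₁` and `e x₂`, the two elements of `A` are equivalent
    have piA : ∀ (ME : Finset E) (MA : Finset A), Reach e a b ↑ME ↑MA (Sum.inl (e x₁)) →
        Reach e a b ↑ME ↑MA (Sum.inl (e x₂)) →
        (Reach e a b ↑ME ↑MA (Sum.inr (Sum.inl (a x₁))) ↔
          Reach e a b ↑ME ↑MA (Sum.inr (Sum.inl (a x₂)))) := by
      intro ME MA h1 h2
      constructor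
      · intro h
        have := Reach.stepB x₁ h1 h
        rw [hbx] at this
        exact Reach.stepA x₂ h2 this
      · intro h
        have := Reach.stepB x₂ h2 h
        rw [← hbx] at this
        exact Reach.stepA x₁ h1 this
    have piE : ∀ (ME : Finset E) (MA : Finset A), Reach e a b ↑ME ↑MA (Sum.inr (Sum.inl (a x₁))) →
        Reach e a b ↑ME ↑MA (Sum.inr (Sum.inl (a x₂))) →
        (Reach e a b ↑ME ↑MA (Sum.inl (e x₁)) ↔ Reach e a b ↑ME ↑MA (Sum.inl (e x₂))) := by
      intro ME MA h1 h2
      constructor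
      · intro h
        have := Reach.stepB x₁ h h1
        rw [hbx] at this
        exact Reach.stepE x₂ h2 this
      · intro h
        have := Reach.stepB x₂ h h2
        rw [← hbx] at this
        exact Reach.stepE x₁ h1 this
    -- non-emptiness comes for free
    have fin : ∀ (ME : Finset E) (MA : Finset A), ME.card + MA.card ≤ s + 1 →
        (∀ u, Reach e a b ↑ME ↑MA (Sum.inl u)) →
        (∀ u, Reach e a b ↑ME ↑MA (Sum.inr (Sum.inl u))) →
        ∃ (KE : Finset E) (KA : Finset A), KE.Nonempty ∧ KA.Nonempty ∧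
          KE.card + KA.card ≤ s + 1 ∧ (∀ u, Reach e a b ↑KE ↑KA (Sum.inl u)) ∧
          (∀ u, Reach e a b ↑KE ↑KA (Sum.inr (Sum.inl u))) := by
      intro ME MA hc h1 h2
      have emptyE : ∀ y, Reach e a b (↑(∅ : Finset E)) (↑MA) y → ∃ u, y = Sum.inr (Sum.inl u) := by
        intro y hy
        induction hy with
        | baseE u h => simp at h
        | baseA u h => exact ⟨u, rfl⟩
        | stepE x _ _ ih1 ih2 => obtain ⟨u, hu⟩ := ih2; simp at hu
        | stepA x _ _ ih1 ih2 => obtain ⟨u, hu⟩ := ih2; simp at hu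
        | stepB x _ _ ih1 ih2 => obtain ⟨u, hu⟩ := ih1; simp at hu
      have emptyA : ∀ y, Reach e a b (↑ME) (↑(∅ : Finset A)) y → ∃ u, y = Sum.inl u := by
        intro y hy
        induction hy with
        | baseE u h => exact ⟨u, rfl⟩
        | baseA u h => simp at h
        | stepE x _ _ ih1 ih2 => obtain ⟨u, hu⟩ := ih2; simp at hu
        | stepA x _ _ ih1 ih2 => obtain ⟨u, hu⟩ := ih2; simp at hu
        | stepB x _ _ ih1 ih2 => obtain ⟨u, hu⟩ := ih2; simp at hu
      refine ⟨ME, MA, ?_, ?_, hc, h1, h2⟩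
      · rw [nonempty_iff_ne_empty]
        rintro rfl
        obtain ⟨u, hu⟩ := emptyE _ (h1 (e x₁))
        simp at hu
      · rw [nonempty_iff_ne_empty]
        rintro rfl
        obtain ⟨u, hu⟩ := emptyA _ (h2 (a x₁))
        simp at hu
    have insE : ∀ u, (insert u LE).card + LA.card ≤ s + 1 := by
      intro u; have := card_insert_le u LE; omega
    have insA : ∀ u, LE.card + (insert u LA).card ≤ s + 1 := by
      intro u; have := card_insert_le u LA; omega
    by_cases c1 : Reach e a b ↑LE ↑LA (Sum.inl (e x₁))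
    · have r1 : Reach e a b ↑(insert (e x₂) LE) ↑LA (Sum.inl (e x₁)) :=
        c1.mono (coe_subset.2 (subset_insert _ _)) (subset_refl _)
      have r2 : Reach e a b ↑(insert (e x₂) LE) ↑LA (Sum.inl (e x₂)) :=
        Reach.baseE _ (by simp)
      obtain ⟨t1, t2⟩ := transfer (insert (e x₂) LE) LA (subset_insert _ _) (Subset.refl _)
        ⟨fun _ => r2, fun _ => r1⟩ (piA _ _ r1 r2)
      exact fin _ _ (insE _) t1 t2
    by_cases c2 : Reach e a b ↑LE ↑LA (Sum.inl (e x₂))
    · have r1 : Reach e a b ↑(insert (e x₁) LE) ↑LA (Sum.inl (e x₂)) :=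
        c2.mono (coe_subset.2 (subset_insert _ _)) (subset_refl _)
      have r2 : Reach e a b ↑(insert (e x₁) LE) ↑LA (Sum.inl (e x₁)) :=
        Reach.baseE _ (by simp)
      obtain ⟨t1, t2⟩ := transfer (insert (e x₁) LE) LA (subset_insert _ _) (Subset.refl _)
        ⟨fun _ => r1, fun _ => r2⟩ (piA _ _ r2 r1)
      exact fin _ _ (insE _) t1 t2
    by_cases c3 : Reach e a b ↑LE ↑LA (Sum.inr (Sum.inl (a x₁)))
    · have r1 : Reach e a b ↑LE ↑(insert (a x₂) LA) (Sum.inr (Sum.inl (a x₁))) :=
        c3.mono (subset_refl _) (coe_subset.2 (subset_insert _ _))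
      have r2 : Reach e a b ↑LE ↑(insert (a x₂) LA) (Sum.inr (Sum.inl (a x₂))) :=
        Reach.baseA _ (by simp)
      obtain ⟨t1, t2⟩ := transfer LE (insert (a x₂) LA) (Subset.refl _) (subset_insert _ _)
        (piE _ _ r1 r2) ⟨fun _ => r2, fun _ => r1⟩
      exact fin _ _ (insA _) t1 t2
    by_cases c4 : Reach e a b ↑LE ↑LA (Sum.inr (Sum.inl (a x₂)))
    · have r1 : Reach e a b ↑LE ↑(insert (a x₁) LA) (Sum.inr (Sum.inl (a x₂))) :=
        c4.mono (subset_refl _) (coe_subset.2 (subset_insert _ _))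
      have r2 : Reach e a b ↑LE ↑(insert (a x₁) LA) (Sum.inr (Sum.inl (a x₁))) :=
        Reach.baseA _ (by simp)
      obtain ⟨t1, t2⟩ := transfer LE (insert (a x₁) LA) (Subset.refl _) (subset_insert _ _)
        (piE _ _ r2 r1) ⟨fun _ => r1, fun _ => r2⟩
      exact fin _ _ (insA _) t1 t2
    -- nothing reached: impossible
    obtain ⟨t1, _⟩ := transfer LE LA (Subset.refl _) (Subset.refl _)
      ⟨fun h => absurd h c1, fun h => absurd h c2⟩ ⟨fun h => absurd h c3, fun h => absurd h c4⟩
    exact absurd (t1 _) c1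

end Pool.MP_f18604_gt.Gem
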