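import Mathlib
import Pool.Agent.Helper43.Gem.Count
import Pool.Agent.Helper43.Gem.Perc

/-!
# Percolation around a hub

If two label pairs `{i,j}` and `{i,k}` span `c + 2` edges each, and the first cohomology with
coefficients in `Z/2` vanishes, then there is a discrete gradient with at most `c` critical
edges.
-/

set_option autoImplicit false

namespace Pool.MP_f18604_gt.Gem

open Finset

namespace ColoredGraph

variable {V : Type} {Γ : ColoredGraph V}

theorem z2_add_self (a : ZMod 2) : a + a = 0 := by revert a; decide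

theorem z2_tele (f : ℕ → ZMod 2) (n : ℕ) : ∑ q ∈ range n, (f q + f (q + 1)) = f 0 + f n := by
  induction n with
  | zero => simp [z2_add_self]
  | succ n ih =>
    rw [sum_range_succ, ih]
    have : f 0 + f n + (f n + f (n + 1)) = f 0 + f (n + 1) + (f n + f n) := by ring
    rw [this, z2_add_self, add_zero]

/-- Labellings of the edges with labels in `{i, j, k}` satisfying the cocycle condition are
constant on the edges with labels `{i, j}` and on those with labels `{i, k}`. -/
theorem labelling (hΓ : Γ.Contracted) (hZ : Γ.Z2Acyclic) {i j k : Fin 5} (hij : i ≠ j)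
    (hik : i ≠ k) (hjk : j ≠ k) (p q r : V → ZMod 2)
    (hp : ∀ c, c ≠ i → c ≠ j → ∀ x, p (Γ.s c x) = p x)
    (hq : ∀ c, c ≠ i → c ≠ k → ∀ x, q (Γ.s c x) = q x)
    (hr : ∀ c, c ≠ j → c ≠ k → ∀ x, r (Γ.s c x) = r x)
    (hsum : ∀ x, p x + q x + r x = 0) :
    (∀ x y, p x = p y) ∧ (∀ x y, q x = q y) := by
  -- the two descriptions of the label of the edges of colour `i`
  have hpq : ∀ x, p x + p (Γ.s i x) = q x + q (Γ.s i x) := by
    intro x
    have h1 := hsum x
    have h2 := hsum (Γ.s i x)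
    rw [hr i hij hik x] at h2
    generalize p x = a at *
    generalize q x = b at *
    generalize r x = c at *
    generalize p (Γ.s i x) = a' at *
    generalize q (Γ.s i x) = b' at *
    revert a b c a' b'; decide
  let u : Fin 5 → V → ZMod 2 := fun c x => if c = i then p x + p (Γ.s i x) else 0
  have ui : ∀ x, u i x = p x + p (Γ.s i x) := fun x => if_pos rfl
  have un : ∀ c x, c ≠ i → u c x = 0 := fun c x h => if_neg h
  obtain ⟨w, hw⟩ := hZ u (by
      intro c x
      by_cases hc : c = i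
      · subst hc; rw [ui, ui, Γ.invol, add_comm]
      · rw [un _ _ hc, un _ _ hc]) (by
      intro c d x n hcd hn
      by_cases hc : c = i
      · subst hc
        -- choose the function invariant under `d`
        obtain ⟨f, hf1, hf2⟩ : ∃ f : V → ZMod 2, (∀ x, u c x = f x + f (Γ.s c x)) ∧
            ∀ x, f (Γ.s d x) = f x := by
          by_cases hd : d = j
          · subst hd
            exact ⟨q, fun x => by rw [ui, hpq], fun x => hq d hcd.symm hjk x⟩
          · exact ⟨p, fun x => by rw [ui], fun x => hp d hcd.symm hd x⟩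
        have : ∀ m ∈ range n, (u c ((fun y => Γ.s d (Γ.s c y))^[m] x) +
            u d (Γ.s c ((fun y => Γ.s d (Γ.s c y))^[m] x))) =
            f ((fun y => Γ.s d (Γ.s c y))^[m] x) + f ((fun y => Γ.s d (Γ.s c y))^[m + 1] x) := by
          intro m _
          rw [un d _ hcd.symm, add_zero, hf1, Function.iterate_succ_apply', hf2]
        rw [sum_congr rfl this, z2_tele (fun m => f ((fun y => Γ.s d (Γ.s c y))^[m] x)), hn]
        exact z2_add_self _
      · by_cases hd : d = i
        · subst hd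
          obtain ⟨f, hf1, hf2⟩ : ∃ f : V → ZMod 2, (∀ x, u d x = f x + f (Γ.s d x)) ∧
              ∀ x, f (Γ.s c x) = f x := by
            by_cases hd : c = j
            · subst hd
              exact ⟨q, fun x => by rw [ui, hpq], fun x => hq c hcd hjk x⟩
            · exact ⟨p, fun x => by rw [ui], fun x => hp c hcd hd x⟩
          have : ∀ m ∈ range n, (u c ((fun y => Γ.s d (Γ.s c y))^[m] x) +
              u d (Γ.s c ((fun y => Γ.s d (Γ.s c y))^[m] x))) =
              f ((fun y => Γ.s d (Γ.s c y))^[m] x) +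
                f ((fun y => Γ.s d (Γ.s c y))^[m + 1] x) := by
            intro m _
            rw [un c _ hcd, zero_add, hf1, Function.iterate_succ_apply', hf2]
          rw [sum_congr rfl this, z2_tele (fun m => f ((fun y => Γ.s d (Γ.s c y))^[m] x)), hn]
          exact z2_add_self _
        · apply sum_eq_zero
          intro m _
          rw [un c _ hc, un d _ hd, add_zero])
  -- `w` is invariant under all colours except `i`, hence constant
  have hwc : ∀ x y, w x = w y := by
    intro x y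
    refine Γ.eq_of_res (C := {i}ᶜ) w ?_ (hΓ i x y)
    intro c hc x
    have hc' : c ≠ i := by simpa using hc
    have := hw c x
    rw [un c x hc'] at this
    generalize w x = a at *
    generalize w (Γ.s c x) = b at *
    revert a b; decide
  have hpi : ∀ x, p (Γ.s i x) = p x := by
    intro x
    have := hw i x
    rw [ui, hwc (Γ.s i x) x] at this
    generalize w x = c at *
    generalize p x = a at *
    generalize p (Γ.s i x) = b at *
    revert a b c; decide
  have hqi : ∀ x, q (Γ.s i x) = q x := by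
    intro x
    have h1 := hpq x
    rw [hpi x] at h1
    generalize p x = c at *
    generalize q x = a at *
    generalize q (Γ.s i x) = b at *
    revert a b c; decide
  constructor
  · intro x y
    refine Γ.eq_of_res (C := {j}ᶜ) p ?_ (hΓ j x y)
    intro c hc x
    have hc' : c ≠ j := by simpa using hc
    by_cases h : c = i
    · subst h; exact hpi x
    · exact hp c h hc' x
  · intro x y
    refine Γ.eq_of_res (C := {k}ᶜ) q ?_ (hΓ k x y)
    intro c hc x
    have hc' : c ≠ k := by simpa using hc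
    by_cases h : c = i
    · subst h; exact hqi x
    · exact hq c h hc' x

/-- edges of the triangle with labels `{i,j,k}` at `x` -/
theorem edge_of_triangle {i j k : Fin 5} (hij : i ≠ j) (hik : i ≠ k) (hjk : j ≠ k) (x : V)
    (hne : ({i, j, k} : Finset (Fin 5)).Nonempty) {z : Γ.Face}
    (hz : z.Le (Γ.face {i, j, k} hne x)) (hc : z.L.card = 2) :
    z = Γ.face {i, j} (insert_nonempty i {j}) x ∨ z = Γ.face {i, k} (insert_nonempty i {k}) x ∨
      z = Γ.face {j, k} (insert_nonempty j {k}) x := by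
  have hxz : x ∈ z.S := hz.2 (mem_face hne x)
  have hL : z.L ⊆ {i, j, k} := hz.1
  have key : ∀ (M : Finset (Fin 5)) (hM : M.Nonempty), z.L = M → z = Γ.face M hM x := by
    intro M hM h
    have h1 := Face.eq_face hxz
    subst h
    exact h1
  rcases card_two_cases hij hik hjk hc hL with h | h | h
  · exact Or.inl (key _ _ h)
  · exact Or.inr (Or.inl (key _ _ h))
  · exact Or.inr (Or.inr (key _ _ h))

theorem face_ne {L M : Finset (Fin 5)} (hL : L.Nonempty) (hM : M.Nonempty) (h : L ≠ M) (x y : V) :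
    Γ.face L hL x ≠ Γ.face M hM y := by
  intro hh
  exact h (congrArg Face.L hh)

/-- `RN K n y`: the edge `y` becomes known after `n` rounds, starting from the edges in `K`. -/
def RN (Γ : ColoredGraph V) (i j k : Fin 5) (K : Set Γ.Face) : ℕ → Γ.Face → Prop
  | 0, y => y ∈ K
  | n + 1, y => RN Γ i j k K n y ∨ ∃ x, y.Le (Γ.face {i, j, k} (insert_nonempty _ _) x) ∧
      ∀ z : Γ.Face, z.Le (Γ.face {i, j, k} (insert_nonempty _ _) x) → z.L.card = 2 → z ≠ y →
        RN Γ i j k K n z

theorem RN.mono {i j k : Fin 5} {K : Set Γ.Face} {n m : ℕ} (h : n ≤ m) {y : Γ.Face}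
    (hy : RN Γ i j k K n y) : RN Γ i j k K m y := by
  induction m, h using Nat.le_induction with
  | base => exact hy
  | succ m _ ih => exact Or.inl ih

theorem percolation_of_RN [Finite V] {i j k : Fin 5} {y₀ y₁ : Γ.Face} (h₀ : y₀.L = {i, j})
    (h₁ : y₁.L = {i, k}) {K : Set Γ.Face} (hy₀ : y₀ ∈ K) (hy₁ : y₁ ∈ K)
    (hK : ∀ y : Γ.Face, y.L ⊆ {i, j, k} → y.L.card = 2 → ∃ n, RN Γ i j k K n y) :
    ∃ (B : ℕ) (st : Γ.Face → ℕ) (tri : Γ.Face → Γ.Face),
      Percolation Γ i j k y₀ y₁ B st tri K := by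
  classical
  let st0 : Γ.Face → ℕ := fun y => sInf {n | RN Γ i j k K n y}
  let st : Γ.Face → ℕ := fun y => if y = y₀ ∨ y = y₁ then 0 else if y ∈ K then 1 else st0 y + 1
  have hst0 : ∀ y n, RN Γ i j k K n y → st y ≤ n + 1 := by
    intro y n hn
    have h1 : st0 y ≤ n := Nat.sInf_le hn
    simp only [st]
    split_ifs <;> omega
  have main : ∀ y : Γ.Face, ∃ t : Γ.Face, y.L ⊆ {i, j, k} → y.L.card = 2 → y ≠ y₀ → y ≠ y₁ →
      y ∉ K → t.L = {i, j, k} ∧ y.Le t ∧
        ∀ z : Γ.Face, z.Le t → z.L.card = 2 → z ≠ y → st z < st y := by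
    intro y
    by_cases hy : y.L ⊆ {i, j, k} ∧ y.L.card = 2 ∧ y ∉ K
    swap
    · exact ⟨y, fun h1 h2 _ _ h5 => absurd ⟨h1, h2, h5⟩ hy⟩
    obtain ⟨hy1, hy2, hy3⟩ := hy
    have hne : {n | RN Γ i j k K n y}.Nonempty := hK y hy1 hy2
    have hmem : RN Γ i j k K (st0 y) y := Nat.sInf_mem hne
    have hsty : st y = st0 y + 1 := by
      simp only [st]
      rw [if_neg, if_neg hy3]
      rintro (rfl | rfl)
      · exact hy3 hy₀
      · exact hy3 hy₁
    rcases hn : st0 y with _ | m
    · rw [hn] at hmem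
      exact absurd hmem hy3
    · rw [hn] at hmem
      have hnm : ¬ RN Γ i j k K m y := by
        intro h
        have : st0 y ≤ m := Nat.sInf_le h
        omega
      rcases hmem with h | ⟨x, hx1, hx2⟩
      · exact absurd h hnm
      · refine ⟨_, fun _ _ _ _ _ => ⟨rfl, hx1, fun z hz hzc hzy => ?_⟩⟩
        have := hst0 z m (hx2 z hz hzc hzy)
        omega
  choose tri htri using main
  obtain ⟨B, hB⟩ := (Set.finite_range st).bddAbove
  refine ⟨B, st, tri, h₀, h₁, ?_, ?_⟩
  · intro y _ _ h3 h4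
    refine ⟨?_, hB ⟨y, rfl⟩⟩
    simp only [st]
    rw [if_neg (by tauto)]
    split_ifs <;> omega
  · intro y h1 h2 h3 h4 h5
    exact htri y h1 h2 h3 h4 h5

/-- the label of an edge chosen as its root -/
theorem exists_rt (Γ : ColoredGraph V) : ∃ rt : Γ.Face → Fin 5, ∀ F, rt F ∈ F.L :=
  ⟨fun F => F.nonempty.choose, fun F => F.nonempty.choose_spec⟩

/-- **Hub lemma.** -/
theorem hub_gradient [Finite V] [Nonempty V] [DecidableEq Γ.Face] (hΓ : Γ.Contracted)
    (hZ : Γ.Z2Acyclic) {i j k : Fin 5} (hij : i ≠ j) (hik : i ≠ k) (hjk : j ≠ k) {c : ℕ}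
    (hE : Γ.g {i, j}ᶜ = c + 2) (hA : Γ.g {i, k}ᶜ = c + 2) :
    ∃ D : DiscreteGradient (bary Γ),
      (∀ F : Γ.Face, D.Critical {F} ↔ F.L = {i}) ∧
      {σ | D.Critical σ ∧ σ.card = 2}.Finite ∧ {σ | D.Critical σ ∧ σ.card = 2}.ncard ≤ c := by
  classical
  have := Fintype.ofFinite Γ.Face
  -- invariance of the families of edges
  have inv : ∀ (L : Finset (Fin 5)) (hL : L.Nonempty) (c : Fin 5), c ∉ L → ∀ x,
      Γ.face L hL (Γ.s c x) = Γ.face L hL x := by
    intro L hL c hc x
    rw [face_eq_iff]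
    exact Γ.res_symm (Γ.res_step (mem_compl.2 hc) x)
  have notmem : ∀ {a b c : Fin 5}, c ≠ a → c ≠ b → c ∉ ({a, b} : Finset (Fin 5)) := by
    intro a b c h1 h2 h
    simp only [mem_insert, mem_singleton] at h
    tauto
  let E := {F : Γ.Face // F.L = {i, j}}
  let A := {F : Γ.Face // F.L = {i, k}}
  let B := {F : Γ.Face // F.L = {j, k}}
  let e : V → E := fun x => ⟨Γ.face {i, j} (insert_nonempty i {j}) x, rfl⟩
  let a : V → A := fun x => ⟨Γ.face {i, k} (insert_nonempty i {k}) x, rfl⟩
  let b : V → B := fun x => ⟨Γ.face {j, k} (insert_nonempty j {k}) x, rfl⟩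
  have surj : ∀ {L : Finset (Fin 5)} (hL : L.Nonempty) (F : Γ.Face), F.L = L →
      ∃ x, F = Γ.face L hL x := by
    intro L hL F hF
    obtain ⟨x, _, hx⟩ := F.exists_eq
    subst hF
    exact ⟨x, hx⟩
  have esurj : ∀ u : E, ∃ x, u = e x := by
    rintro ⟨F, hF⟩
    obtain ⟨x, hx⟩ := surj (insert_nonempty i {j}) F hF
    exact ⟨x, Subtype.ext hx⟩
  have asurj : ∀ u : A, ∃ x, u = a x := by
    rintro ⟨F, hF⟩
    obtain ⟨x, hx⟩ := surj (insert_nonempty i {k}) F hF
    exact ⟨x, Subtype.ext hx⟩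
  have hrigid : Rigid e a b := by
    intro φ ψ hh
    have := labelling hΓ hZ hij hik hjk (fun x => φ (e x)) (fun x => ψ (a x))
      (fun x => φ (e x) + ψ (a x))
      (by
        intro c h1 h2 x
        have : e (Γ.s c x) = e x := Subtype.ext (inv _ _ c (notmem h1 h2) x)
        simp only [this])
      (by
        intro c h1 h2 x
        have : a (Γ.s c x) = a x := Subtype.ext (inv _ _ c (notmem h1 h2) x)
        simp only [this])
      (by
        intro c h1 h2 x
        exact hh _ _ (Subtype.ext (inv _ _ c (notmem h1 h2) x)))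
      (fun x => z2_add_self _)
    refine ⟨fun u v => ?_, fun u v => ?_⟩
    · obtain ⟨x, rfl⟩ := esurj u
      obtain ⟨y, rfl⟩ := esurj v
      exact this.1 x y
    · obtain ⟨x, rfl⟩ := asurj u
      obtain ⟨y, rfl⟩ := asurj v
      exact this.2 x y
  have hEc : Fintype.card E = c + 2 := by
    rw [← Nat.card_eq_fintype_card, ← hE]; exact card_faces_L (insert_nonempty i {j})
  have hAc : Fintype.card A = c + 2 := by
    rw [← Nat.card_eq_fintype_card, ← hA]; exact card_faces_L (insert_nonempty i {k})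
  obtain ⟨KE, KA, hKE, hKA, hcard, hEr, hAr⟩ := percolation b (c + 2) (by omega) E A e a hEc hAc
    hrigid
  set K : Finset Γ.Face := KE.map (Function.Embedding.subtype _) ∪
    KA.map (Function.Embedding.subtype _) with hK
  obtain ⟨u₀, hu₀⟩ := hKE
  obtain ⟨u₁, hu₁⟩ := hKA
  have hy₀ : u₀.1 ∈ K := by
    rw [hK, mem_union, mem_map]; exact Or.inl ⟨u₀, hu₀, rfl⟩
  have hy₁ : u₁.1 ∈ K := by
    rw [hK, mem_union, mem_map, mem_map]; exact Or.inr ⟨u₁, hu₁, rfl⟩
  have hKc : K.card ≤ c + 2 := by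
    refine (card_union_le _ _).trans ?_
    rw [card_map, card_map]; exact hcard
  have hne01 : u₀.1 ≠ u₁.1 := by
    intro h
    have h2 : ({i, j} : Finset (Fin 5)) = {i, k} := by rw [← u₀.2, ← u₁.2, h]
    have h3 : k ∈ ({i, j} : Finset (Fin 5)) := by rw [h2]; simp
    simp only [mem_insert, mem_singleton] at h3
    rcases h3 with h3 | h3
    · exact hik h3.symm
    · exact hjk h3.symm
  -- from `Reach` to rounds
  let toF : E ⊕ A ⊕ B → Γ.Face := fun y => match y with
    | Sum.inl u => u.1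
    | Sum.inr (Sum.inl u) => u.1
    | Sum.inr (Sum.inr u) => u.1
  have eT : ∀ x, (e x).1.Le (Γ.face {i, j, k} (insert_nonempty _ _) x) := by
    intro x; apply face_le; intro c; simp only [mem_insert, mem_singleton]; tauto
  have aT : ∀ x, (a x).1.Le (Γ.face {i, j, k} (insert_nonempty _ _) x) := by
    intro x; apply face_le; intro c; simp only [mem_insert, mem_singleton]; tauto
  have bT : ∀ x, (b x).1.Le (Γ.face {i, j, k} (insert_nonempty _ _) x) := by
    intro x; apply face_le; intro c; simp only [mem_insert, mem_singleton]; tauto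
  have conv : ∀ y, Reach e a b ↑KE ↑KA y → ∃ n, RN Γ i j k (↑K) n (toF y) := by
    intro y hy
    induction hy with
    | baseE u h =>
      exact ⟨0, by
        change u.1 ∈ (↑K : Set Γ.Face)
        rw [mem_coe, hK, mem_union, mem_map]; exact Or.inl ⟨u, mem_coe.1 h, rfl⟩⟩
    | baseA u h =>
      exact ⟨0, by
        change u.1 ∈ (↑K : Set Γ.Face)
        rw [mem_coe, hK, mem_union, mem_map, mem_map]; exact Or.inr ⟨u, mem_coe.1 h, rfl⟩⟩
    | stepE x _ _ ih1 ih2 =>
      obtain ⟨n, hn⟩ := ih1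
      obtain ⟨m, hm⟩ := ih2
      refine ⟨max n m + 1, Or.inr ⟨x, eT x, fun z hz hzc hzy => ?_⟩⟩
      rcases edge_of_triangle hij hik hjk x (insert_nonempty _ _) hz hzc with h | h | h
      · exact absurd h hzy
      · rw [h]; exact hn.mono (le_max_left _ _)
      · rw [h]; exact hm.mono (le_max_right _ _)
    | stepA x _ _ ih1 ih2 =>
      obtain ⟨n, hn⟩ := ih1
      obtain ⟨m, hm⟩ := ih2
      refine ⟨max n m + 1, Or.inr ⟨x, aT x, fun z hz hzc hzy => ?_⟩⟩
      rcases edge_of_triangle hij hik hjk x (insert_nonempty _ _) hz hzc with h | h | h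
      · rw [h]; exact hn.mono (le_max_left _ _)
      · exact absurd h hzy
      · rw [h]; exact hm.mono (le_max_right _ _)
    | stepB x _ _ ih1 ih2 =>
      obtain ⟨n, hn⟩ := ih1
      obtain ⟨m, hm⟩ := ih2
      refine ⟨max n m + 1, Or.inr ⟨x, bT x, fun z hz hzc hzy => ?_⟩⟩
      rcases edge_of_triangle hij hik hjk x (insert_nonempty _ _) hz hzc with h | h | h
      · rw [h]; exact hn.mono (le_max_left _ _)
      · rw [h]; exact hm.mono (le_max_right _ _)
      · exact absurd h hzy
  have hall : ∀ y : Γ.Face, y.L ⊆ {i, j, k} → y.L.card = 2 → ∃ n, RN Γ i j k (↑K) n y := by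
    intro y hy hyc
    rcases card_two_cases hij hik hjk hyc hy with h | h | h
    · exact conv _ (hEr ⟨y, h⟩)
    · exact conv _ (hAr ⟨y, h⟩)
    · obtain ⟨x, hx⟩ := surj (insert_nonempty j {k}) y h
      have := conv _ (Reach.stepB x (hEr (e x)) (hAr (a x)))
      rw [hx]; exact this
  obtain ⟨N, st, tri, hp⟩ := percolation_of_RN u₀.2 u₁.2 (mem_coe.2 hy₀) (mem_coe.2 hy₁) hall
  obtain ⟨rt, hrt⟩ := exists_rt Γ
  obtain ⟨D, hD1, hD2⟩ := triple_gradient hΓ hij hik hjk hp rt hrt
  -- the other end points of the critical edges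
  obtain ⟨x₀⟩ := (inferInstance : Nonempty V)
  have hoth : ∀ F : Γ.Face, ∃ G : Γ.Face, F.L.card = 2 → G.L = F.L.erase (rt F) := by
    intro F
    by_cases h : F.L.card = 2
    · have : (F.L.erase (rt F)).card = 1 := by rw [card_erase_of_mem (hrt F), h]
      have hne : (F.L.erase (rt F)).Nonempty := by rw [← card_pos, this]; exact one_pos
      exact ⟨Γ.face _ hne x₀, fun _ => rfl⟩
    · exact ⟨F, fun h' => absurd h' h⟩
  choose oth hoth using hoth
  have hsub : {σ | D.Critical σ ∧ σ.card = 2} ⊆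
      ↑(((K.erase u₀.1).erase u₁.1).image (fun F => ({F, oth F} : Finset Γ.Face))) := by
    rintro σ ⟨hσ, hσc⟩
    obtain ⟨F, G, hFG, hFK, hF0, hF1, hFc, hG⟩ := hD2 σ hσ hσc
    rw [mem_coe, mem_image]
    refine ⟨F, by rw [mem_erase, mem_erase]; exact ⟨hF1, hF0, mem_coe.1 hFK⟩, ?_⟩
    have h1 := hoth F hFc
    have hc1 : (F.L.erase (rt F)).card = 1 := by rw [card_erase_of_mem (hrt F), hFc]
    obtain ⟨d, hd⟩ := card_eq_one.1 hc1
    have : oth F = G := hΓ.vertex_eq (h1.trans hd) (hG.trans hd)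
    rw [this, hFG]
  refine ⟨D, hD1, (finite_toSet _).subset hsub, ?_⟩
  refine (Set.ncard_le_ncard hsub (finite_toSet _)).trans ?_
  rw [Set.ncard_coe_finset]
  refine card_image_le.trans ?_
  rw [card_erase_of_mem (by rw [mem_erase]; exact ⟨hne01.symm, hy₁⟩), card_erase_of_mem hy₀]
  omega

/-- The gradient of a pair of labels with at most `c + 1` edges. -/
theorem pair_gradient' [Finite V] [Nonempty V] [DecidableEq Γ.Face] (hΓ : Γ.Contracted)
    {i j : Fin 5} (hij : i ≠ j) {c : ℕ} (hE : Γ.g {i, j}ᶜ ≤ c + 1) :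
    ∃ D : DiscreteGradient (bary Γ),
      (∀ F : Γ.Face, D.Critical {F} ↔ F.L = {i}) ∧
      {σ | D.Critical σ ∧ σ.card = 2}.Finite ∧ {σ | D.Critical σ ∧ σ.card = 2}.ncard ≤ c := by
  classical
  have := Fintype.ofFinite Γ.Face
  obtain ⟨x₀⟩ := (inferInstance : Nonempty V)
  obtain ⟨D, hD1, hD2⟩ := pair_gradient hΓ hij x₀
  set vj : Γ.Face := Γ.face {j} (singleton_nonempty j) x₀
  set K : Finset Γ.Face := univ.filter (fun F => F.L = {i, j}) with hK
  set e₀ : Γ.Face := Γ.face {i, j} (insert_nonempty i {j}) x₀ with he₀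
  have he₀K : e₀ ∈ K := by rw [hK, mem_filter]; exact ⟨mem_univ _, rfl⟩
  have hKc : K.card ≤ c + 1 := by
    refine le_trans (le_of_eq ?_) hE
    rw [← card_faces_L (insert_nonempty i {j}), Nat.card_eq_fintype_card, Fintype.card_subtype]
  have hsub : {σ | D.Critical σ ∧ σ.card = 2} ⊆
      ↑((K.erase e₀).image (fun F => ({F, vj} : Finset Γ.Face))) := by
    rintro σ ⟨hσ, hσc⟩
    obtain ⟨F, G, hFG, hF, hG, hF0⟩ := hD2 σ hσ hσc
    rw [mem_coe, mem_image]
    refine ⟨F, by rw [mem_erase, hK, mem_filter]; exact ⟨hF0, mem_univ _, hF⟩, ?_⟩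
    have : vj = G := hΓ.vertex_eq rfl hG
    rw [this, hFG]
  refine ⟨D, hD1, (finite_toSet _).subset hsub, ?_⟩
  refine (Set.ncard_le_ncard hsub (finite_toSet _)).trans ?_
  rw [Set.ncard_coe_finset]
  refine card_image_le.trans ?_
  rw [card_erase_of_mem he₀K]
  omega

end ColoredGraph

end Pool.MP_f18604_gt.Gem
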