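import Mathlib
import Pool.Agent.Helper43.Gem.Hub

/-!
# The f-vector relations and the pigeonhole arguments
-/

set_option autoImplicit false

namespace Pool.MP_f18604_gt.Gem

open Finset

theorem sum_compl (G : Finset (Fin 5) → ℕ) {k l : ℕ} (h : k + l = 5) :
    ∑ L ∈ (univ : Finset (Fin 5)).powersetCard k, G Lᶜ =
      ∑ C ∈ (univ : Finset (Fin 5)).powersetCard l, G C := by
  refine sum_nbij' (fun L => Lᶜ) (fun C => Cᶜ) ?_ ?_ (fun L _ => compl_compl L)
    (fun C _ => compl_compl C) (fun _ _ => rfl)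
  · intro L hL
    rw [mem_powersetCard] at hL ⊢
    refine ⟨subset_univ _, ?_⟩
    rw [card_compl, hL.2, Fintype.card_fin]; omega
  · intro L hL
    rw [mem_powersetCard] at hL ⊢
    refine ⟨subset_univ _, ?_⟩
    rw [card_compl, hL.2, Fintype.card_fin]; omega

theorem card_super : ∀ D ∈ (univ : Finset (Fin 5)).powersetCard 2,
    (((univ : Finset (Fin 5)).powersetCard 3).filter (fun C => D ⊆ C)).card = 3 := by
  decide

theorem sum_double (G : Finset (Fin 5) → ℕ) :
    ∑ C ∈ (univ : Finset (Fin 5)).powersetCard 3, ∑ D ∈ C.powersetCard 2, G D =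
      3 * ∑ D ∈ (univ : Finset (Fin 5)).powersetCard 2, G D := by
  rw [sum_comm' (t' := (univ : Finset (Fin 5)).powersetCard 2)
    (s' := fun D => ((univ : Finset (Fin 5)).powersetCard 3).filter (fun C => D ⊆ C)), mul_sum]
  · apply sum_congr rfl
    intro D hD
    rw [sum_const, card_super D hD, smul_eq_mul]
  · intro C D
    simp only [mem_powersetCard, subset_univ, true_and, mem_filter]
    tauto

theorem pairs_eq : (univ : Finset (Fin 5)).powersetCard 2 =
    {{0, 1}, {0, 2}, {0, 3}, {0, 4}, {1, 2}, {1, 3}, {1, 4}, {2, 3}, {2, 4}, {3, 4}} := by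
  decide

theorem sum_pairs (G : Finset (Fin 5) → ℕ) :
    ∑ D ∈ (univ : Finset (Fin 5)).powersetCard 2, G D =
      G {0, 1} + G {0, 2} + G {0, 3} + G {0, 4} + G {1, 2} + G {1, 3} + G {1, 4} + G {2, 3} +
        G {2, 4} + G {3, 4} := by
  rw [pairs_eq]
  rw [sum_insert (by decide), sum_insert (by decide), sum_insert (by decide),
    sum_insert (by decide), sum_insert (by decide), sum_insert (by decide),
    sum_insert (by decide), sum_insert (by decide), sum_insert (by decide), sum_singleton]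
  ring

/-- the pairs are permuted by a permutation of the colours -/
theorem sum_pairs_perm (G : Finset (Fin 5) → ℕ) (ε : Equiv.Perm (Fin 5)) :
    ∑ D ∈ (univ : Finset (Fin 5)).powersetCard 2, G D =
      ∑ D ∈ (univ : Finset (Fin 5)).powersetCard 2, G (D.map ε.toEmbedding) := by
  symm
  refine sum_nbij' (fun D => D.map ε.toEmbedding) (fun D => D.map ε.symm.toEmbedding) ?_ ?_ ?_ ?_
    (fun _ _ => rfl)
  · intro D hD
    rw [mem_powersetCard] at hD ⊢
    exact ⟨subset_univ _, by rw [card_map, hD.2]⟩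
  · intro D hD
    rw [mem_powersetCard] at hD ⊢
    exact ⟨subset_univ _, by rw [card_map, hD.2]⟩
  · intro D _; ext x; simp
  · intro D _; ext x; simp

theorem sum_pentagon (G : Finset (Fin 5) → ℕ) (ε : Equiv.Perm (Fin 5)) :
    ∑ D ∈ (univ : Finset (Fin 5)).powersetCard 2, G D =
      ∑ i : Fin 5, G {ε i, ε (i + 1)} + ∑ i : Fin 5, G {ε i, ε (i + 2)} := by
  have hm : ∀ a b : Fin 5, ({a, b} : Finset (Fin 5)).map ε.toEmbedding = {ε a, ε b} := by
    intro a b; rw [map_insert, map_singleton]; rfl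
  rw [sum_pairs_perm G ε, sum_pairs]
  simp only [hm, Fin.sum_univ_five]
  have e1 : ((0 : Fin 5) + 1) = 1 := by decide
  have e2 : ((1 : Fin 5) + 1) = 2 := by decide
  have e3 : ((2 : Fin 5) + 1) = 3 := by decide
  have e4 : ((3 : Fin 5) + 1) = 4 := by decide
  have e5 : ((4 : Fin 5) + 1) = 0 := by decide
  have f1 : ((0 : Fin 5) + 2) = 2 := by decide
  have f2 : ((1 : Fin 5) + 2) = 3 := by decide
  have f3 : ((2 : Fin 5) + 2) = 4 := by decide
  have f4 : ((3 : Fin 5) + 2) = 0 := by decide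
  have f5 : ((4 : Fin 5) + 2) = 1 := by decide
  rw [e1, e2, e3, e4, e5, f1, f2, f3, f4, f5, Finset.pair_comm (ε 4) (ε 0),
    Finset.pair_comm (ε 3) (ε 0), Finset.pair_comm (ε 4) (ε 1)]
  ring

namespace ColoredGraph

variable {V : Type} {Γ : ColoredGraph V}

theorem f1_eq [Finite V] : Γ.f 1 = ∑ C ∈ (univ : Finset (Fin 5)).powersetCard 3, Γ.g C := by
  rw [f_eq_sum, sum_compl Γ.g (l := 3) (by norm_num)]

theorem f2_eq [Finite V] : Γ.f 2 = ∑ C ∈ (univ : Finset (Fin 5)).powersetCard 2, Γ.g C := by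
  rw [f_eq_sum, sum_compl Γ.g (l := 2) (by norm_num)]

theorem f0_eq [Finite V] [Nonempty V] (hΓ : Γ.Contracted) : Γ.f 0 = 5 := by
  rw [f_eq_sum]
  have : ∀ L ∈ (univ : Finset (Fin 5)).powersetCard (0 + 1), Γ.g Lᶜ = 1 := by
    intro L hL
    rw [mem_powersetCard] at hL
    obtain ⟨c, rfl⟩ := card_eq_one.1 hL.2
    exact g_compl_singleton hΓ c
  rw [sum_congr rfl this]
  simp

theorem f3_eq [Finite V] : 2 * Γ.f 3 = 5 * Nat.card V := by
  rw [f_eq_sum, sum_compl Γ.g (l := 1) (by norm_num), mul_sum]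
  have : ∀ C ∈ (univ : Finset (Fin 5)).powersetCard 1, 2 * Γ.g C = Nat.card V := by
    intro C hC
    rw [mem_powersetCard] at hC
    obtain ⟨c, rfl⟩ := card_eq_one.1 hC.2
    exact g_singleton c
  rw [sum_congr rfl this]
  simp

theorem f4_eq [Finite V] : Γ.f 4 = Nat.card V := by
  rw [f_eq_sum, sum_compl Γ.g (l := 0) (by norm_num)]
  simp [g_empty]

theorem f_relation [Finite V] (hS : Γ.Spherical) :
    6 * Γ.f 2 = 10 * Nat.card V + 4 * Γ.f 1 := by
  have h := sum_double Γ.g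
  have h1 : ∑ C ∈ (univ : Finset (Fin 5)).powersetCard 3, (2 * ∑ D ∈ C.powersetCard 2, Γ.g D) =
      ∑ C ∈ (univ : Finset (Fin 5)).powersetCard 3, (Nat.card V + 4 * Γ.g C) := by
    apply sum_congr rfl
    intro C hC
    exact triple_relation hS (mem_powersetCard.1 hC).2
  rw [← mul_sum, h, sum_add_distrib, ← mul_sum, ← f1_eq, ← f2_eq] at h1
  have h2 : ∑ C ∈ (univ : Finset (Fin 5)).powersetCard 3, Nat.card V = 10 * Nat.card V := by
    rw [sum_const, card_powersetCard]; rfl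
  rw [h2] at h1
  omega

/-- number of edges of a crystallization -/
theorem f1_formula [Finite V] [Nonempty V] (hΓ : Γ.Contracted) (hS : Γ.Spherical) :
    2 * (Γ.f 1 : ℤ) = Nat.card V + 30 - 6 * Γ.euler := by
  have h0 := f0_eq hΓ
  have h2 := f_relation hS
  have h3 := f3_eq (Γ := Γ)
  have h4 := f4_eq (Γ := Γ)
  unfold euler
  omega

theorem triple_relation' [Finite V] (hS : Γ.Spherical) {a b c : Fin 5} (hab : a ≠ b)
    (hac : a ≠ c) (hbc : b ≠ c) :
    2 * (Γ.g {a, b} + Γ.g {a, c} + Γ.g {b, c}) = Nat.card V + 4 * Γ.g {a, b, c} := by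
  have h1 : ({a, b, c} : Finset (Fin 5)).card = 3 := card_triple hab hac hbc
  have h2 : ({a, b, c} : Finset (Fin 5)).powersetCard 2 = {{a, b}, {a, c}, {b, c}} := by
    revert a b c; decide
  have h3 : ({a, b} : Finset (Fin 5)) ∉ ({{a, c}, {b, c}} : Finset (Finset (Fin 5))) := by
    revert a b c; decide
  have h4 : ({a, c} : Finset (Fin 5)) ∉ ({{b, c}} : Finset (Finset (Fin 5))) := by
    revert a b c; decide
  rw [← triple_relation hS h1, h2, sum_insert h3, sum_insert h4, sum_singleton]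
  ring

theorem compl_pair (ε : Equiv.Perm (Fin 5)) (i : Fin 5) :
    ({ε i, ε (i + 2)} : Finset (Fin 5))ᶜ = {ε (i + 1), ε (i + 3), ε (i + 4)} := by
  ext x
  obtain ⟨y, rfl⟩ := ε.surjective x
  simp only [mem_compl, mem_insert, mem_singleton, ε.injective.eq_iff]
  revert i y; decide

/-- The number of edges of the triangulation whose labels are at distance two in the cyclic
ordering `ε`. -/
theorem diag_formula [Finite V] [Nonempty V] (hΓ : Γ.Contracted) (hS : Γ.Spherical)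
    (ε : Equiv.Perm (Fin 5)) :
    2 * ∑ i : Fin 5, (Γ.g {ε i, ε (i + 2)}ᶜ : ℤ) = 20 - 4 * Γ.euler - Γ.regEuler ε := by
  have h0 := f0_eq hΓ
  have h2 := f_relation hS
  have h3 := f3_eq (Γ := Γ)
  have h4 := f4_eq (Γ := Γ)
  have h5 := sum_pentagon Γ.g ε
  rw [← f2_eq] at h5
  -- the five triples
  have ht : ∀ i : Fin 5, 2 * (Γ.g {ε (i + 1), ε (i + 1 + 2)} + Γ.g {ε (i + 3), ε (i + 3 + 1)} +
      Γ.g {ε (i + 4), ε (i + 4 + 2)}) = Nat.card V + 4 * Γ.g {ε i, ε (i + 2)}ᶜ := by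
    intro i
    rw [compl_pair ε i, ← triple_relation' hS]
    · have e1 : i + 1 + 2 = i + 3 := by revert i; decide
      have e2 : i + 3 + 1 = i + 4 := by revert i; decide
      have e3 : i + 4 + 2 = i + 1 := by revert i; decide
      rw [e1, e2, e3, Finset.pair_comm (ε (i + 4)) (ε (i + 1))]
      ring
    · rw [ε.injective.ne_iff]; revert i; decide
    · rw [ε.injective.ne_iff]; revert i; decide
    · rw [ε.injective.ne_iff]; revert i; decide
  have hs := sum_congr (rfl : (univ : Finset (Fin 5)) = univ) (fun i _ => ht i)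
  have r1 : ∑ i : Fin 5, Γ.g {ε (i + 1), ε (i + 1 + 2)} = ∑ i : Fin 5, Γ.g {ε i, ε (i + 2)} :=
    Equiv.sum_comp (Equiv.addRight (1 : Fin 5)) (fun i => Γ.g {ε i, ε (i + 2)})
  have r2 : ∑ i : Fin 5, Γ.g {ε (i + 3), ε (i + 3 + 1)} = ∑ i : Fin 5, Γ.g {ε i, ε (i + 1)} :=
    Equiv.sum_comp (Equiv.addRight (3 : Fin 5)) (fun i => Γ.g {ε i, ε (i + 1)})
  have r3 : ∑ i : Fin 5, Γ.g {ε (i + 4), ε (i + 4 + 2)} = ∑ i : Fin 5, Γ.g {ε i, ε (i + 2)} :=
    Equiv.sum_comp (Equiv.addRight (4 : Fin 5)) (fun i => Γ.g {ε i, ε (i + 2)})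
  rw [← mul_sum, sum_add_distrib, sum_add_distrib, r1, r2, r3, sum_add_distrib, ← mul_sum] at hs
  have hc : ∑ i : Fin 5, Nat.card V = 5 * Nat.card V := by simp
  rw [hc] at hs
  have hg : 2 * ∑ c : Fin 5, Γ.g {c} = 5 * Nat.card V := by
    rw [mul_sum, sum_congr rfl (fun c _ => g_singleton c)]; simp
  unfold euler regEuler
  push_cast
  zify at h0 h2 h3 h4 h5 hs hg
  linarith

end ColoredGraph

end Pool.MP_f18604_gt.Gem
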