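import Mathlib
import Pool.Agent.Helper43.Gem.Arith

/-!
# Few edges force few critical edges
-/

set_option autoImplicit false

namespace Pool.MP_f18604_gt.Gem

open Finset

theorem star_ineq {c p q r t : ℕ} (hp : c + 2 ≤ p) (hq : c + 2 ≤ q) (hr : c + 2 ≤ r)
    (ht : c + 2 ≤ t) (h1 : ¬ (p = c + 2 ∧ q = c + 2)) (h2 : ¬ (p = c + 2 ∧ r = c + 2))
    (h3 : ¬ (p = c + 2 ∧ t = c + 2)) (h4 : ¬ (q = c + 2 ∧ r = c + 2))
    (h5 : ¬ (q = c + 2 ∧ t = c + 2)) (h6 : ¬ (r = c + 2 ∧ t = c + 2)) :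
    4 * c + 11 ≤ p + q + r + t := by
  omega

/-- pigeonhole for the complete graph on five labels -/
theorem pigeon (m : Fin 5 → Fin 5 → ℕ) (hm : ∀ i j, m i j = m j i) {c : ℕ}
    (h : m 0 1 + m 0 2 + m 0 3 + m 0 4 + m 1 2 + m 1 3 + m 1 4 + m 2 3 + m 2 4 + m 3 4 ≤
      10 * c + 27) :
    (∃ i j : Fin 5, i ≠ j ∧ m i j ≤ c + 1) ∨
      ∃ i j k : Fin 5, i ≠ j ∧ i ≠ k ∧ j ≠ k ∧ m i j = c + 2 ∧ m i k = c + 2 := by
  by_contra hcon
  push Not at hcon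
  obtain ⟨h1, h2⟩ := hcon
  have a : ∀ i j : Fin 5, i ≠ j → c + 2 ≤ m i j := fun i j hij => h1 i j hij
  have b : ∀ i j k : Fin 5, i ≠ j → i ≠ k → j ≠ k → ¬ (m i j = c + 2 ∧ m i k = c + 2) :=
    fun i j k hij hik hjk hh => h2 i j k hij hik hjk hh.1 hh.2
  have star : ∀ i p q r t : Fin 5, i ≠ p → i ≠ q → i ≠ r → i ≠ t → p ≠ q → p ≠ r → p ≠ t →
      q ≠ r → q ≠ t → r ≠ t → 4 * c + 11 ≤ m i p + m i q + m i r + m i t := by
    intro i p q r t h1 h2 h3 h4 h5 h6 h7 h8 h9 h10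
    exact star_ineq (a i p h1) (a i q h2) (a i r h3) (a i t h4) (b i p q h1 h2 h5)
      (b i p r h1 h3 h6) (b i p t h1 h4 h7) (b i q r h2 h3 h8) (b i q t h2 h4 h9)
      (b i r t h3 h4 h10)
  have s0 := star 0 1 2 3 4 (by decide) (by decide) (by decide) (by decide) (by decide)
    (by decide) (by decide) (by decide) (by decide) (by decide)
  have s1 := star 1 0 2 3 4 (by decide) (by decide) (by decide) (by decide) (by decide)
    (by decide) (by decide) (by decide) (by decide) (by decide)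
  have s2 := star 2 0 1 3 4 (by decide) (by decide) (by decide) (by decide) (by decide)
    (by decide) (by decide) (by decide) (by decide) (by decide)
  have s3 := star 3 0 1 2 4 (by decide) (by decide) (by decide) (by decide) (by decide)
    (by decide) (by decide) (by decide) (by decide) (by decide)
  have s4 := star 4 0 1 2 3 (by decide) (by decide) (by decide) (by decide) (by decide)
    (by decide) (by decide) (by decide) (by decide) (by decide)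
  rw [hm 1 0] at s1
  rw [hm 2 0, hm 2 1] at s2
  rw [hm 3 0, hm 3 1, hm 3 2] at s3
  rw [hm 4 0, hm 4 1, hm 4 2, hm 4 3] at s4
  omega

/-- pigeonhole for a pentagon of label pairs -/
theorem pigeon_pentagon (m : Fin 5 → Fin 5 → ℕ) (hm : ∀ i j, m i j = m j i)
    (ε : Equiv.Perm (Fin 5)) {c : ℕ} (h : ∑ i : Fin 5, m (ε i) (ε (i + 2)) ≤ 5 * c + 12) :
    (∃ i j : Fin 5, i ≠ j ∧ m i j ≤ c + 1) ∨
      ∃ i j k : Fin 5, i ≠ j ∧ i ≠ k ∧ j ≠ k ∧ m i j = c + 2 ∧ m i k = c + 2 := by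
  by_contra hcon
  push Not at hcon
  obtain ⟨h1, h2⟩ := hcon
  have d1 : ∀ i : Fin 5, i ≠ i + 2 := by decide
  have d2 : ∀ i : Fin 5, i ≠ i + 2 + 2 := by decide
  have key : ∀ i : Fin 5, 2 * c + 5 ≤ m (ε i) (ε (i + 2)) + m (ε (i + 2)) (ε (i + 2 + 2)) := by
    intro i
    have e1 : ε i ≠ ε (i + 2) := ε.injective.ne (d1 i)
    have e2 : ε (i + 2) ≠ ε (i + 2 + 2) := ε.injective.ne (d1 (i + 2))
    have e3 : ε i ≠ ε (i + 2 + 2) := ε.injective.ne (d2 i)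
    have f1 : c + 2 ≤ m (ε i) (ε (i + 2)) := h1 _ _ e1
    have f2 : c + 2 ≤ m (ε (i + 2)) (ε (i + 2 + 2)) := h1 _ _ e2
    have f3 : m (ε (i + 2)) (ε i) = c + 2 → m (ε (i + 2)) (ε (i + 2 + 2)) ≠ c + 2 :=
      h2 _ _ _ e1.symm e2 e3
    rw [hm (ε (i + 2)) (ε i)] at f3
    omega
  have hs : ∑ i : Fin 5, (m (ε i) (ε (i + 2)) + m (ε (i + 2)) (ε (i + 2 + 2))) =
      2 * ∑ i : Fin 5, m (ε i) (ε (i + 2)) := by
    rw [sum_add_distrib]
    have : ∑ i : Fin 5, m (ε (i + 2)) (ε (i + 2 + 2)) = ∑ i : Fin 5, m (ε i) (ε (i + 2)) :=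
      Equiv.sum_comp (Equiv.addRight (2 : Fin 5)) (fun i => m (ε i) (ε (i + 2)))
    rw [this]; ring
  have hk := sum_le_sum (s := (univ : Finset (Fin 5))) (fun i _ => key i)
  rw [hs] at hk
  simp only [sum_const, card_univ, Fintype.card_fin, smul_eq_mul] at hk
  omega

namespace ColoredGraph

variable {V : Type} {Γ : ColoredGraph V}

/-- A gradient whose critical vertices are the faces with label `i` has exactly one critical
vertex. -/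
theorem unique_vertex [Nonempty V] (hΓ : Γ.Contracted) {D : DiscreteGradient (bary Γ)} {i : Fin 5}
    (h : ∀ F : Γ.Face, D.Critical {F} ↔ F.L = {i}) : ∃! σ, D.Critical σ ∧ σ.card = 1 := by
  obtain ⟨x₀⟩ := (inferInstance : Nonempty V)
  refine ⟨{Γ.face {i} (singleton_nonempty i) x₀}, ⟨(h _).2 rfl, card_singleton _⟩, ?_⟩
  rintro σ ⟨hσ, hσc⟩
  obtain ⟨F, rfl⟩ := card_eq_one.1 hσc
  rw [hΓ.vertex_eq ((h F).1 hσ) (rfl : (Γ.face {i} (singleton_nonempty i) x₀).L = {i})]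

theorem final [Finite V] [Nonempty V] (hΓ : Γ.Contracted) (hZ : Γ.Z2Acyclic) {c : ℕ}
    (h : (∃ i j : Fin 5, i ≠ j ∧ Γ.g {i, j}ᶜ ≤ c + 1) ∨
      ∃ i j k : Fin 5, i ≠ j ∧ i ≠ k ∧ j ≠ k ∧ Γ.g {i, j}ᶜ = c + 2 ∧ Γ.g {i, k}ᶜ = c + 2) :
    ∃ D : DiscreteGradient (bary Γ), (∃! σ, D.Critical σ ∧ σ.card = 1) ∧
      {σ | D.Critical σ ∧ σ.card = 2}.ncard ≤ c := by
  classical
  rcases h with ⟨i, j, hij, hg⟩ | ⟨i, j, k, hij, hik, hjk, h1, h2⟩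
  · obtain ⟨D, hD1, _, hD2⟩ := pair_gradient' hΓ hij hg
    exact ⟨D, unique_vertex hΓ hD1, hD2⟩
  · obtain ⟨D, hD1, _, hD2⟩ := hub_gradient hΓ hZ hij hik hjk h1 h2
    exact ⟨D, unique_vertex hΓ hD1, hD2⟩

theorem few_edges [Finite V] [Nonempty V] (hΓ : Γ.Contracted) (hS : Γ.Spherical)
    (hZ : Γ.Z2Acyclic) (c : ℕ)
    (h : (Nat.card V : ℤ) ≤ 6 * Γ.euler + 20 * c + 24 ∨
      ∃ ε : Equiv.Perm (Fin 5), -(4 * Γ.euler + 10 * c + 4) ≤ Γ.regEuler ε) :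
    ∃ D : DiscreteGradient (bary Γ), (∃! σ, D.Critical σ ∧ σ.card = 1) ∧
      {σ | D.Critical σ ∧ σ.card = 2}.ncard ≤ c := by
  have hm : ∀ i j : Fin 5, Γ.g {i, j}ᶜ = Γ.g {j, i}ᶜ := by
    intro i j; rw [Finset.pair_comm]
  apply final hΓ hZ
  rcases h with h | ⟨ε, h⟩
  · apply pigeon (fun i j => Γ.g {i, j}ᶜ) hm
    have h1 := f1_formula hΓ hS
    have h2 : Γ.f 1 = ∑ L ∈ (univ : Finset (Fin 5)).powersetCard (1 + 1), Γ.g Lᶜ := f_eq_sum 1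
    rw [sum_pairs (fun L => Γ.g Lᶜ)] at h2
    omega
  · apply pigeon_pentagon (fun i j => Γ.g {i, j}ᶜ) hm ε
    have h1 := diag_formula hΓ hS ε
    have h2 : ((∑ i : Fin 5, Γ.g {ε i, ε (i + 2)}ᶜ : ℕ) : ℤ) =
        ∑ i : Fin 5, (Γ.g {ε i, ε (i + 2)}ᶜ : ℤ) := by push_cast; rfl
    omega

end ColoredGraph

end Pool.MP_f18604_gt.Gem
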